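import Pool.Agent.KS6_22.AL.Asm

/-!
# The mean value theorem for the fibres over the points of degree `N`

Owner helper22.
-/

set_option autoImplicit false
set_option linter.unusedSectionVars false
set_option linter.unusedVariables false
set_option linter.style.haveILetI false

open Polynomial NumberField IsDedekindDomain Filter Topology
open Pool.Agent.T6.H9.MV (fmean fmean_eq kv qv card_kv qv_ne_zero two_le_qv summable_qv
  multipliable_of_bound tprod_ne_zero' hasProd_zpow diff_prod norm_fmean_sub_one_le avg box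
  card_box_pos mem_box norm_tprod_le)
open Pool.Agent.KS6_22.MF
open Pool.Agent.KS6_22.SP (ee norm_qpow qv_one qv_pos pow_neg_le prod_bound Zf idx mem_idx zc OmT
  isOpen_OmT ball_OmT exists_deltaT OmT_mono two_le_qvR one_sub_ne pow_lt' prod_pow_lt pos_prod
  q_facts degs weights mem_degs mem_weights cpow_sum)

namespace Pool.Agent.KS6_22.AL

attribute [local instance] fldv

section tot

variable {F : Type} [Field F] [NumberField F] {r N : ℕ} {m : Fin r → ℕ}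
  {α : ∀ k, ClPt F → Fin (m k) → ℂ} {ϑ : Fin r → ℝ}

lemma summable_sg {κ : ℝ} (hκ : 2 < κ) :
    Summable fun x : Sg F => (nx (toMax x) : ℝ) ^ (-κ) := by
  have hterm : ∀ (v : HeightOneSpectrum (𝓞 F)) (P : Pt (kv v)),
      (nx (toMax (⟨v, P⟩ : Sg F)) : ℝ) ^ (-κ) =
      ((qv v : ℝ) ^ (-(κ - 1)) / (Nat.card (kv v) : ℝ)) ^ P.1.natDegree := by
    intro v P
    rw [card_toMax, card_kv]
    push_cast
    have h1 : (qv v : ℝ) ^ (-(κ - 1)) / (qv v : ℝ) = (qv v : ℝ) ^ (-κ) := by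
      nth_rewrite 2 [← Real.rpow_one (qv v : ℝ)]
      rw [← Real.rpow_sub (qv_pos v)]
      congr 1
      ring
    rw [h1, ← Real.rpow_natCast, ← Real.rpow_natCast, ← Real.rpow_mul (qv_pos v).le,
      ← Real.rpow_mul (qv_pos v).le]
    congr 1
    ring
  have hκ1 : 0 < κ - 1 := by linarith
  rw [summable_sigma_of_nonneg fun x => Real.rpow_nonneg (Nat.cast_nonneg _) _]
  constructor
  · intro v
    obtain ⟨h0, h1, h2⟩ := rho_facts hκ1 v
    refine (summable_pt (k := kv v) h0.le (by linarith)).1.congr fun P => ?_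
    exact (hterm v P).symm
  · have h3 : Summable fun v : HeightOneSpectrum (𝓞 F) =>
        (1 - (2 : ℝ) ^ (-(κ - 1)))⁻¹ * (qv v : ℝ) ^ (-(κ - 1)) :=
      (summable_qv (K := F) (by linarith)).mul_left _
    refine h3.of_nonneg_of_le (fun v => tsum_nonneg fun P =>
      Real.rpow_nonneg (Nat.cast_nonneg _) _) fun v => ?_
    obtain ⟨h0, h1, h2⟩ := rho_facts hκ1 v
    have h4 := (summable_pt (k := kv v) h0.le (by linarith)).2
    have h5 : ∑' P : Pt (kv v), (nx (toMax (⟨v, P⟩ : Sg F)) : ℝ) ^ (-κ) =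
        ∑' P : Pt (kv v), ((qv v : ℝ) ^ (-(κ - 1)) / (Nat.card (kv v) : ℝ)) ^ P.1.natDegree :=
      tsum_congr fun P => hterm v P
    rw [h5]
    refine h4.trans ?_
    rw [div_eq_mul_inv, mul_comm]
    refine mul_le_mul_of_nonneg_right ?_ h0.le
    exact inv_anti₀ (by linarith) (by linarith)

lemma summable_nx {κ : ℝ} (hκ : 2 < κ) : Summable fun x : ClPt F => (nx x : ℝ) ^ (-κ) :=
  (ptE (F := F)).summable_iff.1 (summable_sg hκ)

lemma two_le_nx (x : ClPt F) : (2 : ℝ) ≤ nx x := by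
  obtain ⟨y, rfl⟩ := toMax_surj x
  rw [card_toMax]
  push_cast
  have h1 := two_le_qvR y.1
  have h2 := y.2.2.2.natDegree_pos
  calc (2 : ℝ) ≤ (qv y.1 : ℝ) ^ 1 := by rwa [pow_one]
    _ ≤ _ := pow_le_pow_right₀ (by linarith) h2

lemma nx_pos (x : ClPt F) : (0 : ℝ) < nx x := by
  have := two_le_nx x
  linarith

lemma norm_npow (x : ClPt F) (s : ℂ) : ‖(nx x : ℂ) ^ (-s)‖ = (nx x : ℝ) ^ (-s.re) := by
  rw [Complex.norm_natCast_cpow_of_pos (Nat.pos_of_ne_zero (nx_ne x)), Complex.neg_re]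

lemma term_bound (hα : ∀ k x i, ‖α k x i‖ ≤ (nx x : ℝ) ^ ϑ k) {j : Fin r → ℕ}
    {μ : (k : Fin r) × Fin (m k) → ℕ} (hμ : μ ∈ weights m j) (u : ℂ) (x : ClPt F) :
    ‖(∏ z, α z.1 x z.2 ^ μ z) * (nx x : ℂ) ^ (-u)‖ ≤
      (nx x : ℝ) ^ (-(u.re - ∑ k, (j k : ℝ) * ϑ k)) := by
  rw [norm_mul, norm_npow, norm_prod]
  have h1 : ∏ z : (k : Fin r) × Fin (m k), ‖α z.1 x z.2 ^ μ z‖ ≤
      (nx x : ℝ) ^ (∑ k, (j k : ℝ) * ϑ k) := by
    calc _ ≤ ∏ z : (k : Fin r) × Fin (m k), (nx x : ℝ) ^ (ϑ z.1 * (μ z : ℝ)) := by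
          refine Finset.prod_le_prod (fun _ _ => norm_nonneg _) fun z _ => ?_
          rw [norm_pow, Real.rpow_mul (nx_pos x).le, Real.rpow_natCast]
          exact pow_le_pow_left₀ (norm_nonneg _) (hα _ _ _) _
      _ = (nx x : ℝ) ^ (∑ z : (k : Fin r) × Fin (m k), ϑ z.1 * (μ z : ℝ)) := by
          rw [Real.rpow_sum_of_pos (nx_pos x)]
      _ = _ := by
          congr 1
          rw [Fintype.sum_sigma]
          refine Finset.sum_congr rfl fun k _ => ?_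
          change ∑ i : Fin (m k), ϑ k * (μ ⟨k, i⟩ : ℝ) = _
          rw [← Finset.mul_sum, ← mem_weights.1 hμ k]
          push_cast
          ring
  calc _ ≤ (nx x : ℝ) ^ (∑ k, (j k : ℝ) * ϑ k) * (nx x : ℝ) ^ (-u.re) :=
        mul_le_mul_of_nonneg_right h1 (Real.rpow_nonneg (nx_pos x).le _)
    _ = _ := by
      rw [← Real.rpow_add (nx_pos x)]
      congr 1
      ring

/-- the Euler product over the closed points of the affine line -/
theorem tot_hasProd (hα : ∀ k x i, ‖α k x i‖ ≤ (nx x : ℝ) ^ ϑ k) (e : Fin r → ℤ)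
    (j : Fin r → ℕ) {u : ℂ} (hu : 2 + ∑ k, (j k : ℝ) * ϑ k < u.re) :
    HasProd (fun x => totFactor α e j u x) (Ltot α e j u) ∧ Ltot α e j u ≠ 0 := by
  classical
  set κ : ℝ := u.re - ∑ k, (j k : ℝ) * ϑ k with hκ
  have hκ1 : 2 < κ := by linarith
  obtain ⟨C, B, hC, hB, h⟩ := prod_bound (J := {μ // μ ∈ weights m j})
    (fun μ => -(∏ z : (k : Fin r) × Fin (m k), Ring.multichoose (e z.1) (μ.1 z)))
    (pow_neg_le (x := 2) le_rfl (by linarith : 0 < κ)).2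
  have key : ∀ x : ClPt F, ‖totFactor α e j u x - 1‖ ≤
      C * (nx x : ℝ) ^ (-κ) ∧ totFactor α e j u x ≠ 0 := by
    intro x
    have h1 := h (fun μ => (∏ z, α z.1 x z.2 ^ μ.1 z) * (nx x : ℂ) ^ (-u)) ((nx x : ℝ) ^ (-κ))
      (Real.rpow_nonneg (nx_pos x).le _) (pow_neg_le (two_le_nx x) (by linarith)).1
      (fun μ => term_bound hα μ.2 u x)
    have h2 : ∏ μ : {μ // μ ∈ weights m j},
        (1 - (∏ z, α z.1 x z.2 ^ μ.1 z) * (nx x : ℂ) ^ (-u)) ^
          (-(∏ z : (k : Fin r) × Fin (m k), Ring.multichoose (e z.1) (μ.1 z))) =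
        totFactor α e j u x :=
      Finset.prod_coe_sort (weights m j) fun μ =>
        (1 - (∏ z, α z.1 x z.2 ^ μ z) * (nx x : ℂ) ^ (-u)) ^
          (-(∏ z : (k : Fin r) × Fin (m k), Ring.multichoose (e z.1) (μ z)))
    rw [h2] at h1
    exact ⟨h1.1, h1.2.2⟩
  have hβ : Summable fun x : ClPt F => C * (nx x : ℝ) ^ (-κ) := (summable_nx hκ1).mul_left C
  exact ⟨(multipliable_of_bound hβ fun x => (key x).1).hasProd,
    tprod_ne_zero' hβ (fun x => (key x).1) fun x => (key x).2⟩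

/-- the monomials -/
lemma tP_eq {j : Fin r → ℕ} {μ : (k : Fin r) × Fin (m k) → ℕ} (hμ : μ ∈ weights m j)
    (s : Fin r → ℂ) (v : HeightOneSpectrum (𝓞 F)) (P : Pt (kv v)) :
    tP (yA α s v) P.1 μ = (∏ z, α z.1 (toMax ⟨v, P⟩) z.2 ^ μ z) *
      (nx (toMax (⟨v, P⟩ : Sg F)) : ℂ) ^ (-(1 + ∑ k, (j k : ℂ) * s k)) := by
  have hq : (nx (toMax (⟨v, P⟩ : Sg F)) : ℂ) ≠ 0 := by exact_mod_cast nx_ne _
  have hcard : (Nat.card (kv v) : ℂ) ^ P.1.natDegree = (nx (toMax (⟨v, P⟩ : Sg F)) : ℂ) := by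
    rw [card_toMax, card_kv]
    push_cast
    rfl
  unfold tP
  rw [hcard]
  have h1 : ∏ z, yA α s v P.1 z ^ μ z = (∏ z, α z.1 (toMax ⟨v, P⟩) z.2 ^ μ z) *
      (nx (toMax (⟨v, P⟩ : Sg F)) : ℂ) ^ (-∑ k, (j k : ℂ) * s k) := by
    rw [Finset.prod_congr rfl fun z _ => by rw [yA_eq, mul_pow], Finset.prod_mul_distrib]
    congr 1
    rw [Fintype.prod_sigma, cpow_sum hq]
    refine Finset.prod_congr rfl fun k _ => ?_
    have h2 : ∏ i : Fin (m k), ((nx (toMax (⟨v, P⟩ : Sg F)) : ℂ) ^ (-(s k))) ^ μ ⟨k, i⟩ =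
        ((nx (toMax (⟨v, P⟩ : Sg F)) : ℂ) ^ (-(s k))) ^ (j k) := by
      rw [Finset.prod_pow_eq_pow_sum, mem_weights.1 hμ k]
    refine h2.trans ?_
    rw [← Complex.cpow_nat_mul]
    congr 1
    ring
  rw [h1, neg_add, Complex.cpow_add _ _ hq, Complex.cpow_neg_one, div_eq_mul_inv]
  ring

/-- the main term as a product of Euler factors -/
lemma wA_inv (e : Fin r → ℤ) (s : Fin r → ℂ) (v : HeightOneSpectrum (𝓞 F)) (P : Pt (kv v)) :
    (wA N e α s v P)⁻¹ =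
      ∏ j ∈ degs r N, totFactor α e j (1 + ∑ k, (j k : ℂ) * s k) (toMax ⟨v, P⟩) := by
  classical
  unfold wA
  rw [← Finset.prod_inv_distrib]
  have hmaps : ∀ μ ∈ idx ((k : Fin r) × Fin (m k)) N, (fun k => ∑ i, μ ⟨k, i⟩) ∈ degs r N := by
    intro μ hμ
    rw [mem_idx, Fintype.sum_sigma] at hμ
    rw [mem_degs]
    exact hμ
  rw [← Finset.prod_fiberwise_of_maps_to hmaps]
  refine Finset.prod_congr rfl fun j hj => ?_
  unfold totFactor
  have hset : (idx ((k : Fin r) × Fin (m k)) N).filter (fun μ => (fun k => ∑ i, μ ⟨k, i⟩) = j) =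
      weights m j := by
    ext μ
    rw [Finset.mem_filter, mem_idx, mem_weights, Fintype.sum_sigma]
    rw [mem_degs] at hj
    constructor
    · rintro ⟨-, h⟩ k
      exact congrFun h k
    · intro h
      have h1 : ∑ k, ∑ i, μ ⟨k, i⟩ = ∑ k, j k := Finset.sum_congr rfl fun k _ => h k
      exact ⟨by rw [h1]; exact hj, funext h⟩
  rw [hset]
  refine Finset.prod_congr rfl fun μ hμ => ?_
  rw [tP_eq hμ, ← zpow_neg]
  rfl

lemma re_gt {s : Fin r → ℂ} (hs : ∀ k, 1 + ϑ k < (s k).re) {M : ℕ} {j : Fin r → ℕ}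
    (hj : j ∈ degs r M) :
    2 + ∑ k, (j k : ℝ) * ϑ k < (1 + ∑ k, (j k : ℂ) * s k).re := by
  have h1 := Pool.Agent.KS6_22.SP.re_gt hs hj
  rw [Complex.add_re, Complex.one_re]
  linarith

/-- the factorisation of the limit -/
lemma limA (e : Fin r → ℤ) (hα : ∀ k x i, ‖α k x i‖ ≤ (nx x : ℝ) ^ ϑ k)
    {s : Fin r → ℂ} (hs : ∀ k, 1 + ϑ k < (s k).re) :
    ∏' v : HeightOneSpectrum (𝓞 F), eA N e α s v =
      (∏ j ∈ degs r N, Ltot α e j (1 + ∑ k, (j k : ℂ) * s k)) * HA N e α s := by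
  classical
  have hs1 : s ∈ OmT ϑ 1 := fun k => by linarith [hs k]
  have hs0 : s ∈ OmT ϑ 0 := OmT_mono zero_le_one hs1
  have hM1 : 1 / ((N : ℝ) + 1) ≤ 1 := by
    rw [div_le_one (by positivity)]
    have : (0 : ℝ) ≤ N := Nat.cast_nonneg N
    linarith
  obtain ⟨δ, hδ, hsδ⟩ := exists_deltaT hs1
  obtain ⟨β, hβ, hb⟩ := lA_bound N e hα hδ
  have h1 : HasProd (fun v : HeightOneSpectrum (𝓞 F) => lA N e α s v) (HA N e α s) :=
    (multipliable_of_bound hβ fun v => hb s (OmT_mono (by linarith) hsδ) v).hasProd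
  have h2 : HasProd (fun x : ClPt F =>
      ∏ j ∈ degs r N, totFactor α e j (1 + ∑ k, (j k : ℂ) * s k) x)
      (∏ j ∈ degs r N, Ltot α e j (1 + ∑ k, (j k : ℂ) * s k)) :=
    hasProd_prod fun j hj => (tot_hasProd hα e j (re_gt hs hj)).1
  have h3 := (ptE (F := F)).hasProd_iff.2 h2
  have h4 : HasProd (fun v : HeightOneSpectrum (𝓞 F) => (WA N e α s v)⁻¹)
      (∏ j ∈ degs r N, Ltot α e j (1 + ∑ k, (j k : ℂ) * s k)) := by
    refine h3.sigma fun v => ?_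
    obtain ⟨h5, h6⟩ := WA_hasProd N e hα hs0 v
    have h7 := hasProd_zpow h5 h6 (-1)
    rw [zpow_neg_one] at h7
    refine h7.congr_fun fun P => ?_
    rw [zpow_neg_one, wA_inv]
    rfl
  rw [← (h4.mul h1).tprod_eq]
  refine tprod_congr fun v => ?_
  have hW := (WA_hasProd N e hα hs0 v).2
  unfold lA
  rw [mul_comm (eA N e α s v), ← mul_assoc, inv_mul_cancel₀ hW, one_mul]

end tot

section main

variable {F : Type} [Field F] [NumberField F] {ι : Type} [Fintype ι] [DecidableEq ι] {N r : ℕ}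
  {m : Fin r → ℕ} {α : ∀ k, ClPt F → Fin (m k) → ℂ} {ϑ : Fin r → ℝ}

/-- the local function -/
noncomputable def hA (e : Fin r → ℤ) (α : ∀ k, ClPt F → Fin (m k) → ℂ) (s : Fin r → ℂ)
    (v : HeightOneSpectrum (𝓞 F)) (t : Fin N → kv v) : ℂ := GG (ZA e α s v) (mon t)

lemma prod_eqA (ω : Module.Basis ι ℤ (𝓞 F)) (e : Fin r → ℤ)
    (hα : ∀ k x i, ‖α k x i‖ ≤ (nx x : ℝ) ^ ϑ k) {s : Fin r → ℂ} (hs : ∀ k, 1 + ϑ k < (s k).re)
    {x : Fin N × ι → ℤ} (hirr : Irreducible (fpoly (vec ω x))) :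
    ∏' v : HeightOneSpectrum (𝓞 F), hA e α s v (rd v (vec ω x)) =
      ∏ k, Lfib (α k) (vec ω x) (s k) ^ e k := by
  haveI : Fact (Irreducible (fpoly (vec ω x))) := ⟨hirr⟩
  have h1 := hasProd_GA (dt_theta (vec ω x)) e hα hs
  have h2 : ∀ k, Lfib (α k) (vec ω x) (s k) = ∏' w : HeightOneSpectrum (𝓞 (Fld (vec ω x))),
      fibFactor (α k) (theta (vec ω x)) (aeval (theta (vec ω x)) (derivative (mon (vec ω x)))) w
        (s k) := by
    intro k
    unfold Lfib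
    rw [dif_pos hirr]
  rw [Finset.prod_congr rfl fun k _ => by rw [h2 k], ← h1.tprod_eq]
  refine tprod_congr fun v => ?_
  unfold hA fb
  rw [mon_map]
  rfl

/-- **The mean value theorem.** -/
theorem tendsto_mainF (ω : Module.Basis ι ℤ (𝓞 F)) (hN : N ≠ 0) (e : Fin r → ℤ)
    (hα : ∀ k x i, ‖α k x i‖ ≤ (nx x : ℝ) ^ ϑ k) {s : Fin r → ℂ}
    (hs : ∀ k, 1 + ϑ k < (s k).re) :
    Tendsto (fun B : Fin N → ι → ℕ => mean (FamB ω B) fun c => ∏ k, Lfib (α k) c (s k) ^ e k) atTop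
      (𝓝 ((∏ j ∈ degs r N, Ltot α e j (1 + ∑ k, (j k : ℂ) * s k)) * HA N e α s)) := by
  classical
  have hs1 : s ∈ OmT ϑ 1 := fun k => by linarith [hs k]
  obtain ⟨δ, hδ, hsδ⟩ := exists_deltaT hs1
  obtain ⟨β, hβ, hb⟩ := GA_bound (F := F) N e hα (κ := 1 + δ + δ) (by linarith)
  have hb' : ∀ (v : HeightOneSpectrum (𝓞 F)) (t : Fin N → kv v), ‖hA e α s v t - 1‖ ≤ β v :=
    fun v t => hb s hsδ v t
  have h1 := tendsto_all (J := Fin N) ω (fun v t => hA e α s v t) hβ hb'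
  have hlim : ∏' v : HeightOneSpectrum (𝓞 F), fmean (fun t : Fin N → kv v => hA e α s v t) =
      (∏ j ∈ degs r N, Ltot α e j (1 + ∑ k, (j k : ℂ) * s k)) * HA N e α s := limA e hα hs
  rw [hlim] at h1
  have hden : Tendsto (fun B : Fin N × ι → ℕ => avg (box B) (fun x =>
      if Irreducible (fpoly (vec ω x)) then (0 : ℂ) else 1)) atTop (𝓝 0) :=
    irr_density (J := Fin N) (n := N) ω (Nat.pos_of_ne_zero hN) (e := id) Function.injective_id
  have h2 := tendsto_sub (fun B : Fin N × ι → ℕ => card_box_pos B)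
    (fun x => Irreducible (fpoly (vec ω x)))
    (fun x => norm_tprod_le hβ (fun v => hb' v (rd v (vec ω x)))) h1 hden
  have h3 := h2.comp (tendsto_uncurry1 (ι := ι) (N := N))
  refine h3.congr fun B => ?_
  rw [famB_eq, mean_image _ _ (vec_inj ω)]
  simp only [Function.comp_apply]
  unfold avg
  congr 1
  refine Finset.sum_congr rfl fun x hx => ?_
  exact prod_eqA ω e hα hs (Finset.mem_filter.1 hx).2

end main

end Pool.Agent.KS6_22.AL
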