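import Pool.Agent.KS6_22.AL.Glob

/-!
# The local means and the main term

Owner helper22.
-/

set_option autoImplicit false
set_option linter.unusedSectionVars false
set_option linter.unusedVariables false
set_option linter.style.haveILetI false

open Polynomial NumberField IsDedekindDomain Filter Topology
open Pool.Agent.T6.H9.MV (fmean fmean_eq kv qv card_kv qv_ne_zero two_le_qv summable_qv
  multipliable_of_bound tprod_ne_zero' hasProd_zpow diff_prod tendstoUniformlyOn_prod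
  differentiableOn_of_tendstoUniformlyOn norm_fmean_sub_one_le)
open Pool.Agent.KS6_22.MF
open Pool.Agent.KS6_22.SP (ee norm_qpow qv_one qv_pos pow_neg_le prod_bound Zf idx mem_idx zc OmT
  isOpen_OmT ball_OmT exists_deltaT OmT_mono two_le_qvR one_sub_ne pow_lt' prod_pow_lt pos_prod
  q_facts)

namespace Pool.Agent.KS6_22.AL

attribute [local instance] fldv

section gen

variable {r : ℕ}

/-- holomorphy of infinite products -/
lemma diff_tprod {ι : Type} {f : ι → (Fin r → ℂ) → ℂ} {ϑ : Fin r → ℝ} {c : ℝ}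
    (hd : ∀ i, ∀ s ∈ OmT ϑ c, DifferentiableAt ℂ (f i) s)
    (hb : ∀ δ : ℝ, 0 < δ → ∃ β : ι → ℝ, Summable β ∧ ∀ s ∈ OmT ϑ (c + δ), ∀ i,
      ‖f i s - 1‖ ≤ β i) :
    DifferentiableOn ℂ (fun s => ∏' i, f i s) (OmT ϑ c) := by
  intro x hx
  obtain ⟨δ, hδ, hxδ⟩ := exists_deltaT hx
  obtain ⟨β, hβ, hb⟩ := hb δ hδ
  have h1 : TendstoUniformlyOn (fun (D : Finset ι) s => ∏ v ∈ D, f v s)
      (fun s => ∏' i, f i s) atTop (OmT ϑ (c + δ)) :=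
    tendstoUniformlyOn_prod hβ fun v s hs => hb s hs v
  have h2 := differentiableOn_of_tendstoUniformlyOn (U := OmT ϑ (c + δ))
    (V := OmT ϑ (c + δ + δ)) hδ (isOpen_OmT _ _) (fun y hy => ball_OmT hy)
    (fun D => by
      intro y hy
      have hy' : y ∈ OmT ϑ c := OmT_mono (by linarith) hy
      exact (diff_prod D fun v _ => hd v y hy').differentiableWithinAt) h1
  exact ((h2 x hxδ).differentiableAt ((isOpen_OmT _ _).mem_nhds hxδ)).differentiableWithinAt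

end gen

section loc

variable {F : Type} [Field F] [NumberField F] {r N : ℕ} {m : Fin r → ℕ}
  {α : ∀ k, ClPt F → Fin (m k) → ℂ} {ϑ : Fin r → ℝ}

lemma nx_toMax_pos (x : Sg F) : (0 : ℝ) < nx (toMax x) := by
  rw [card_toMax]
  push_cast
  exact pow_pos (qv_pos x.1) _

lemma yA_norm (hα : ∀ k x i, ‖α k x i‖ ≤ (nx x : ℝ) ^ ϑ k) {s : Fin r → ℂ} {κ : ℝ}
    (hs : s ∈ OmT ϑ κ) (v : HeightOneSpectrum (𝓞 F)) : Small (yA α s v) ((qv v : ℝ) ^ (-κ)) := by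
  intro P hPm hPi x
  have h1 := yA_eq α s v (⟨P, hPm, hPi⟩ : Pt (kv v)) x
  change yA α s v P x = _ at h1
  have hp := nx_toMax_pos (⟨v, ⟨P, hPm, hPi⟩⟩ : Sg F)
  have hp1 : 1 ≤ (nx (toMax (⟨v, ⟨P, hPm, hPi⟩⟩ : Sg F)) : ℝ) := by
    exact_mod_cast Nat.succ_le_of_lt (by exact_mod_cast hp)
  have h2 : ‖(nx (toMax (⟨v, ⟨P, hPm, hPi⟩⟩ : Sg F)) : ℂ) ^ (-(s x.1))‖ =
      (nx (toMax (⟨v, ⟨P, hPm, hPi⟩⟩ : Sg F)) : ℝ) ^ (-(s x.1).re) := by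
    rw [Complex.norm_natCast_cpow_of_pos (by exact_mod_cast hp), Complex.neg_re]
  rw [h1, norm_mul, h2]
  have h3 : ((qv v : ℝ) ^ (-κ)) ^ P.natDegree =
      (nx (toMax (⟨v, ⟨P, hPm, hPi⟩⟩ : Sg F)) : ℝ) ^ (-κ) := by
    rw [card_toMax]
    push_cast
    rw [← Real.rpow_natCast, ← Real.rpow_natCast, ← Real.rpow_mul (qv_pos v).le,
      ← Real.rpow_mul (qv_pos v).le]
    congr 1
    ring
  rw [h3]
  calc _ ≤ (nx (toMax (⟨v, ⟨P, hPm, hPi⟩⟩ : Sg F)) : ℝ) ^ ϑ x.1 *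
        (nx (toMax (⟨v, ⟨P, hPm, hPi⟩⟩ : Sg F)) : ℝ) ^ (-(s x.1).re) :=
        mul_le_mul_of_nonneg_right (hα _ _ _) (Real.rpow_nonneg hp.le _)
    _ = (nx (toMax (⟨v, ⟨P, hPm, hPi⟩⟩ : Sg F)) : ℝ) ^ (ϑ x.1 + -(s x.1).re) := by
        rw [← Real.rpow_add hp]
    _ ≤ _ := Real.rpow_le_rpow_of_exponent_le hp1 (by linarith [hs x.1])

/-- the local mean -/
noncomputable def eA (N : ℕ) (e : Fin r → ℤ) (α : ∀ k, ClPt F → Fin (m k) → ℂ)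
    (s : Fin r → ℂ) (v : HeightOneSpectrum (𝓞 F)) : ℂ := DZ (ZA e α s v) N

/-- the inverse of the Euler factors of the main term at a closed point -/
noncomputable def wA (N : ℕ) (e : Fin r → ℤ) (α : ∀ k, ClPt F → Fin (m k) → ℂ)
    (s : Fin r → ℂ) (v : HeightOneSpectrum (𝓞 F)) (P : Pt (kv v)) : ℂ :=
  ∏ μ ∈ idx ((k : Fin r) × Fin (m k)) N, (1 - tP (yA α s v) P.1 μ) ^ (zc (ee m e) μ)

/-- the product over the closed points over `v` -/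
noncomputable def WA (N : ℕ) (e : Fin r → ℤ) (α : ∀ k, ClPt F → Fin (m k) → ℂ)
    (s : Fin r → ℂ) (v : HeightOneSpectrum (𝓞 F)) : ℂ := ∏' P : Pt (kv v), wA N e α s v P

/-- summability over the closed points -/
lemma summable_pt {k : Type} [Field k] [Finite k] {x : ℝ} (h0 : 0 ≤ x) (h1 : x < 1) :
    Summable (fun P : Pt k => (x / (Nat.card k : ℝ)) ^ P.1.natDegree) ∧
    ∑' P : Pt k, (x / (Nat.card k : ℝ)) ^ P.1.natDegree ≤ x / (1 - x) := by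
  obtain ⟨hq0, hq1, hq2⟩ := q_facts (k := k)
  have hnn : ∀ P : Pt k, 0 ≤ (x / (Nat.card k : ℝ)) ^ P.1.natDegree := fun P => by positivity
  have hs : Summable (fun P : Pt k => (x / (Nat.card k : ℝ)) ^ P.1.natDegree) :=
    summable_of_sum_le hnn fun D => sum_pt_le D h0 h1
  exact ⟨hs, hs.tsum_le_of_sum_le fun D => sum_pt_le D h0 h1⟩

lemma rho_facts {κ : ℝ} (hκ : 0 < κ) (v : HeightOneSpectrum (𝓞 F)) :
    0 < (qv v : ℝ) ^ (-κ) ∧ (qv v : ℝ) ^ (-κ) ≤ (2 : ℝ) ^ (-κ) ∧ (2 : ℝ) ^ (-κ) < 1 :=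
  ⟨Real.rpow_pos_of_pos (qv_pos v) _, (pow_neg_le (two_le_qvR v) hκ).1,
    (pow_neg_le (two_le_qvR v) hκ).2⟩

lemma wA_bound (N : ℕ) (e : Fin r → ℤ) (hα : ∀ k x i, ‖α k x i‖ ≤ (nx x : ℝ) ^ ϑ k)
    {κ : ℝ} (hκ : 0 < κ) : ∃ C : ℝ, 0 ≤ C ∧ ∀ s ∈ OmT ϑ κ, ∀ v (P : Pt (kv v)),
      ‖wA N e α s v P - 1‖ ≤ C * ((qv v : ℝ) ^ (-κ) / (Nat.card (kv v) : ℝ)) ^ P.1.natDegree ∧
      wA N e α s v P ≠ 0 := by
  classical
  obtain ⟨C, B, hC, hB, h⟩ := prod_bound (J := {μ // μ ∈ idx ((k : Fin r) × Fin (m k)) N})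
    (fun μ => zc (ee m e) μ.1) (pow_neg_le (x := 2) le_rfl hκ).2
  refine ⟨C, hC, fun s hs v P => ?_⟩
  obtain ⟨h0, h1, h2⟩ := rho_facts hκ v
  obtain ⟨hq0, hq1, hq2⟩ := q_facts (k := kv v)
  have h3 : (qv v : ℝ) ^ (-κ) / (Nat.card (kv v) : ℝ) ≤ (qv v : ℝ) ^ (-κ) :=
    div_le_self h0.le hq1
  have h4 : 0 < (qv v : ℝ) ^ (-κ) / (Nat.card (kv v) : ℝ) := by positivity
  have h5 : ((qv v : ℝ) ^ (-κ) / (Nat.card (kv v) : ℝ)) ^ P.1.natDegree ≤ (2 : ℝ) ^ (-κ) := by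
    calc _ ≤ ((qv v : ℝ) ^ (-κ) / (Nat.card (kv v) : ℝ)) ^ 1 :=
          pow_le_pow_of_le_one h4.le (by linarith) P.2.2.natDegree_pos
      _ ≤ _ := by
        rw [pow_one]
        linarith
  have h6 := h (fun μ => tP (yA α s v) P.1 μ.1)
    (((qv v : ℝ) ^ (-κ) / (Nat.card (kv v) : ℝ)) ^ P.1.natDegree) (by positivity) h5
    (fun μ => tP_norm h0.le (by linarith) (yA_norm hα hs v) P (mem_idx.1 μ.2).1)
  have h7 : ∏ μ : {μ // μ ∈ idx ((k : Fin r) × Fin (m k)) N},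
      (1 - tP (yA α s v) P.1 μ.1) ^ (zc (ee m e) μ.1) = wA N e α s v P :=
    Finset.prod_coe_sort (idx ((k : Fin r) × Fin (m k)) N) fun μ =>
      (1 - tP (yA α s v) P.1 μ) ^ (zc (ee m e) μ)
  rw [h7] at h6
  exact ⟨h6.1, h6.2.2⟩

lemma WA_hasProd (N : ℕ) (e : Fin r → ℤ) (hα : ∀ k x i, ‖α k x i‖ ≤ (nx x : ℝ) ^ ϑ k)
    {s : Fin r → ℂ} (hs : s ∈ OmT ϑ 0) (v : HeightOneSpectrum (𝓞 F)) :
    HasProd (fun P : Pt (kv v) => wA N e α s v P) (WA N e α s v) ∧ WA N e α s v ≠ 0 := by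
  obtain ⟨δ, hδ, hsδ⟩ := exists_deltaT hs
  have hs' : s ∈ OmT ϑ δ := OmT_mono (by linarith) hsδ
  obtain ⟨C, hC, hb⟩ := wA_bound (F := F) N e hα hδ
  obtain ⟨h0, h1, h2⟩ := rho_facts hδ v
  have hβ := (summable_pt (k := kv v) h0.le (by linarith)).1.mul_left C
  exact ⟨(multipliable_of_bound hβ fun P => (hb s hs' v P).1).hasProd,
    tprod_ne_zero' hβ (fun P => (hb s hs' v P).1) fun P => (hb s hs' v P).2⟩

/-- the correction factor -/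
noncomputable def lA (N : ℕ) (e : Fin r → ℤ) (α : ∀ k, ClPt F → Fin (m k) → ℂ) (s : Fin r → ℂ)
    (v : HeightOneSpectrum (𝓞 F)) : ℂ := eA N e α s v * WA N e α s v

lemma finite_deg_le {k : Type} [Field k] [Finite k] (N : ℕ) :
    {P : Pt k | P.1.natDegree ≤ N}.Finite := by
  have h1 : {P : Pt k | P.1.natDegree ≤ N} ⊆ ⋃ d ∈ Finset.range (N + 1),
      {P : Pt k | P.1.natDegree = d} := by
    intro P hP
    rw [Set.mem_iUnion₂]
    exact ⟨P.1.natDegree, Finset.mem_range.2 (Nat.lt_succ_of_le hP), rfl⟩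
  refine Set.Finite.subset (Set.Finite.biUnion (Finset.finite_toSet _) fun d _ => ?_) h1
  have h2 : ∀ P : {P : Pt k | P.1.natDegree = d}, ∃ c : Fin d → k, mon c = P.1.1 :=
    fun P => exists_mon P.1.2.1 P.2
  choose c hc using h2
  have hinj : Function.Injective c := by
    intro P Q h
    apply Subtype.ext
    apply Subtype.ext
    rw [← hc, ← hc, h]
  exact Set.finite_coe_iff.1 (Finite.of_injective c hinj)

theorem GA_bound (N : ℕ) (e : Fin r → ℤ) (hα : ∀ k x i, ‖α k x i‖ ≤ (nx x : ℝ) ^ ϑ k)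
    {κ : ℝ} (hκ : 1 < κ) : ∃ β : HeightOneSpectrum (𝓞 F) → ℝ, Summable β ∧
      ∀ s ∈ OmT ϑ κ, ∀ v (t : Fin N → kv v), ‖GG (ZA e α s v) (mon t) - 1‖ ≤ β v := by
  classical
  obtain ⟨C, hC, h⟩ := local_main ((k : Fin r) × Fin (m k)) (ee m e) N
    (Real.rpow_pos_of_pos two_pos (-κ)) (pow_neg_le (x := 2) le_rfl (by linarith : 0 < κ)).2
  refine ⟨fun v => C * (qv v : ℝ) ^ (-κ), (summable_qv (K := F) hκ).mul_left C,
    fun s hs v t => ?_⟩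
  obtain ⟨h0, h1, h2⟩ := rho_facts (by linarith : 0 < κ) v
  exact (h (kv v) (yA α s v) ((qv v : ℝ) ^ (-κ)) h0 h1 (yA_norm hα hs v)).1 t

theorem lA_bound (N : ℕ) (e : Fin r → ℤ) (hα : ∀ k x i, ‖α k x i‖ ≤ (nx x : ℝ) ^ ϑ k)
    {δ : ℝ} (hδ : 0 < δ) : ∃ β : HeightOneSpectrum (𝓞 F) → ℝ, Summable β ∧
      ∀ s ∈ OmT ϑ (1 / ((N : ℝ) + 1) + δ), ∀ v, ‖lA N e α s v - 1‖ ≤ β v := by
  classical
  have hN : (0 : ℝ) < (N : ℝ) + 1 := by positivity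
  set κ : ℝ := 1 / ((N : ℝ) + 1) + δ with hκ
  have hκ0 : 0 < κ := by positivity
  obtain ⟨C, hC, h⟩ := local_main ((k : Fin r) × Fin (m k)) (ee m e) N
    (Real.rpow_pos_of_pos two_pos (-κ)) (pow_neg_le (x := 2) le_rfl hκ0).2
  refine ⟨fun v => C * ((qv v : ℝ) ^ (-(κ + 1)) + (qv v : ℝ) ^ (-(κ * (N + 1)))), ?_,
    fun s hs v => ?_⟩
  · refine Summable.mul_left _ (Summable.add (summable_qv (by linarith)) (summable_qv ?_))
    have : κ * (N + 1) = 1 + δ * (N + 1) := by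
      rw [hκ]
      field_simp
    rw [this]
    have : 0 < δ * (N + 1) := by positivity
    linarith
  · obtain ⟨h0, h1, h2⟩ := rho_facts hκ0 v
    have h3 := (h (kv v) (yA α s v) ((qv v : ℝ) ^ (-κ)) h0 h1 (yA_norm hα hs v)).2
    have hs0 : s ∈ OmT ϑ 0 := OmT_mono hκ0.le hs
    have h4 : Tendsto (fun D : Finset (Pt (kv v)) =>
        ‖eA N e α s v * ∏ P ∈ D, wA N e α s v P - 1‖) atTop (𝓝 ‖lA N e α s v - 1‖) := by
      have h5 : Tendsto (fun D : Finset (Pt (kv v)) => ∏ P ∈ D, wA N e α s v P) atTop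
          (𝓝 (WA N e α s v)) := (WA_hasProd N e hα hs0 v).1
      exact ((h5.const_mul _).sub_const 1).norm
    refine le_of_tendsto h4 ?_
    filter_upwards [eventually_ge_atTop (finite_deg_le (k := kv v) N).toFinset] with D hD
    have h6 := h3 D (fun P hP => hD ((finite_deg_le (k := kv v) N).mem_toFinset.2 hP))
    rw [card_kv] at h6
    have h7 : (qv v : ℝ) ^ (-κ) / (qv v : ℝ) = (qv v : ℝ) ^ (-(κ + 1)) := by
      nth_rewrite 2 [← Real.rpow_one (qv v : ℝ)]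
      rw [← Real.rpow_sub (qv_pos v)]
      congr 1
      ring
    have h8 : ((qv v : ℝ) ^ (-κ)) ^ (N + 1) = (qv v : ℝ) ^ (-(κ * (N + 1))) := by
      rw [← Real.rpow_natCast, ← Real.rpow_mul (qv_pos v).le]
      congr 1
      push_cast
      ring
    rw [h7, h8] at h6
    exact h6

lemma nx_ne (x : ClPt F) : nx x ≠ 0 := by
  obtain ⟨y, rfl⟩ := toMax_surj x
  have := nx_toMax_pos y
  exact_mod_cast this.ne'

lemma yA_diff (v : HeightOneSpectrum (𝓞 F)) (P : (kv v)[X]) (x : (k : Fin r) × Fin (m k))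
    (s : Fin r → ℂ) : DifferentiableAt ℂ (fun s => yA α s v P x) s := by
  classical
  by_cases h : P.Monic ∧ Irreducible P
  · have h1 : (fun s => yA α s v P x) = fun s =>
        α x.1 (toMax ⟨v, ⟨P, h⟩⟩) x.2 * (nx (toMax (⟨v, ⟨P, h⟩⟩ : Sg F)) : ℂ) ^ (-(s x.1)) := by
      funext s
      exact yA_eq α s v (⟨P, h⟩ : Pt (kv v)) x
    rw [h1]
    have h0 : (nx (toMax (⟨v, ⟨P, h⟩⟩ : Sg F)) : ℂ) ≠ 0 := by exact_mod_cast nx_ne _
    have hf : DifferentiableAt ℂ (fun s : Fin r → ℂ => -(s x.1)) s := by fun_prop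
    exact (differentiableAt_const _).mul (hf.const_cpow (Or.inl h0))
  · have h1 : (fun s => yA α s v P x) = fun _ => 0 := by
      funext s
      unfold yA
      rw [dif_neg h]
      rfl
    rw [h1]
    exact differentiableAt_const _

lemma yA_lt (hα : ∀ k x i, ‖α k x i‖ ≤ (nx x : ℝ) ^ ϑ k) {s : Fin r → ℂ} (hs : s ∈ OmT ϑ 0)
    (v : HeightOneSpectrum (𝓞 F)) (P : Pt (kv v)) (x : (k : Fin r) × Fin (m k)) :
    ‖yA α s v P.1 x‖ < 1 := by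
  obtain ⟨δ, hδ, hsδ⟩ := exists_deltaT hs
  have hs' : s ∈ OmT ϑ δ := OmT_mono (by linarith) hsδ
  obtain ⟨h0, h1, h2⟩ := rho_facts hδ v
  refine (yA_norm hα hs' v P.1 P.2.1 P.2.2 x).trans_lt ?_
  refine pow_lt_one₀ h0.le (by linarith) ?_
  have := P.2.2.natDegree_pos
  omega

lemma tP_lt (hα : ∀ k x i, ‖α k x i‖ ≤ (nx x : ℝ) ^ ϑ k) {s : Fin r → ℂ} (hs : s ∈ OmT ϑ 0)
    (v : HeightOneSpectrum (𝓞 F)) (P : Pt (kv v)) {μ : (k : Fin r) × Fin (m k) → ℕ}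
    (hμ : 0 < ∑ x, μ x) : ‖tP (yA α s v) P.1 μ‖ < 1 := by
  unfold tP
  obtain ⟨hq0, hq1, hq2⟩ := q_facts (k := kv v)
  rw [norm_div, norm_pow, Complex.norm_natCast]
  have h1 : (1 : ℝ) ≤ (Nat.card (kv v) : ℝ) ^ P.1.natDegree := one_le_pow₀ hq1
  rw [div_lt_one (by linarith)]
  exact (prod_pow_lt (yA_lt hα hs v P) hμ).trans_le h1

lemma ZA_diff (e : Fin r → ℤ) (hα : ∀ k x i, ‖α k x i‖ ≤ (nx x : ℝ) ^ ϑ k) {s : Fin r → ℂ}
    (hs : s ∈ OmT ϑ 0) (v : HeightOneSpectrum (𝓞 F)) (P : Pt (kv v)) :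
    DifferentiableAt ℂ (fun s => ZA e α s v P.1) s := by
  unfold ZA Zf
  refine diff_prod _ fun x _ => ?_
  have h1 : DifferentiableAt ℂ (fun s => 1 - yA α s v P.1 x ^ 1) s :=
    (differentiableAt_const _).sub ((yA_diff v P.1 x s).pow 1)
  exact h1.zpow (Or.inl (one_sub_ne (pow_lt' (yA_lt hα hs v P x) one_ne_zero)))

lemma eA_diff (e : Fin r → ℤ) (hα : ∀ k x i, ‖α k x i‖ ≤ (nx x : ℝ) ^ ϑ k) {s : Fin r → ℂ}
    (hs : s ∈ OmT ϑ 0) (v : HeightOneSpectrum (𝓞 F)) :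
    DifferentiableAt ℂ (fun s => eA N e α s v) s := by
  unfold eA DZ
  refine diff_fmean fun c => ?_
  unfold GG
  refine diff_prod _ fun P hP => ?_
  have hP' := ((mem_SF (mon_monic c).ne_zero).1 hP).1
  exact ZA_diff e hα hs v ⟨P, hP'.2.1, hP'.1⟩

lemma wA_diff (e : Fin r → ℤ) (hα : ∀ k x i, ‖α k x i‖ ≤ (nx x : ℝ) ^ ϑ k) {s : Fin r → ℂ}
    (hs : s ∈ OmT ϑ 0) (v : HeightOneSpectrum (𝓞 F)) (P : Pt (kv v)) :
    DifferentiableAt ℂ (fun s => wA N e α s v P) s := by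
  unfold wA
  refine diff_prod _ fun μ hμ => ?_
  have h1 : DifferentiableAt ℂ (fun s => 1 - tP (yA α s v) P.1 μ) s := by
    unfold tP
    have h2 : DifferentiableAt ℂ (fun s => ∏ x, yA α s v P.1 x ^ μ x) s :=
      diff_prod _ fun x _ => (yA_diff v P.1 x s).pow _
    simp only [div_eq_mul_inv]
    exact (differentiableAt_const _).sub (h2.mul_const _)
  exact h1.zpow (Or.inl (one_sub_ne (tP_lt hα hs v P (mem_idx.1 hμ).1)))

lemma WA_diff (e : Fin r → ℤ) (hα : ∀ k x i, ‖α k x i‖ ≤ (nx x : ℝ) ^ ϑ k) {s : Fin r → ℂ}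
    (hs : s ∈ OmT ϑ 0) (v : HeightOneSpectrum (𝓞 F)) :
    DifferentiableAt ℂ (fun s => WA N e α s v) s := by
  have h1 : DifferentiableOn ℂ (fun s => ∏' P : Pt (kv v), wA N e α s v P) (OmT ϑ 0) := by
    refine diff_tprod (fun P s hs => wA_diff e hα hs v P) fun δ hδ => ?_
    obtain ⟨C, hC, hb⟩ := wA_bound (F := F) N e hα hδ
    obtain ⟨h0, h1, h2⟩ := rho_facts hδ v
    refine ⟨_, (summable_pt (k := kv v) h0.le (by linarith)).1.mul_left C, fun s hs P => ?_⟩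
    rw [zero_add] at hs
    exact (hb s hs v P).1
  exact (h1 s hs).differentiableAt ((isOpen_OmT _ _).mem_nhds hs)

/-- the correction function -/
noncomputable def HA (N : ℕ) (e : Fin r → ℤ) (α : ∀ k, ClPt F → Fin (m k) → ℂ)
    (s : Fin r → ℂ) : ℂ := ∏' v : HeightOneSpectrum (𝓞 F), lA N e α s v

theorem HA_diff (N : ℕ) (e : Fin r → ℤ) (hα : ∀ k x i, ‖α k x i‖ ≤ (nx x : ℝ) ^ ϑ k) :
    DifferentiableOn ℂ (HA N e α) (OmT ϑ (1 / ((N : ℝ) + 1))) := by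
  have hN : (0 : ℝ) < 1 / ((N : ℝ) + 1) := by positivity
  exact diff_tprod (fun v s hs => (eA_diff e hα (OmT_mono hN.le hs) v).mul
    (WA_diff e hα (OmT_mono hN.le hs) v)) fun δ hδ => lA_bound N e hα hδ

theorem HA_ne (N : ℕ) (e : Fin r → ℤ) (hα : ∀ k x i, ‖α k x i‖ ≤ (nx x : ℝ) ^ ϑ k)
    {s : Fin r → ℂ} (hs : s ∈ OmT ϑ (1 / ((N : ℝ) + 1))) (he : ∀ v, eA N e α s v ≠ 0) :
    HA N e α s ≠ 0 := by
  obtain ⟨δ, hδ, hxδ⟩ := exists_deltaT hs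
  obtain ⟨β, hβ, hb⟩ := lA_bound N e hα hδ
  have hN : (0 : ℝ) < 1 / ((N : ℝ) + 1) := by positivity
  exact tprod_ne_zero' hβ (fun v => hb s (OmT_mono (by linarith) hxδ) v)
    fun v => mul_ne_zero (he v) (WA_hasProd N e hα (OmT_mono hN.le hs) v).2

/-- the parameters are stable under complex conjugation -/
def ConjA (α : ∀ k, ClPt F → Fin (m k) → ℂ) : Prop :=
  ∀ k x, ∃ π : Equiv.Perm (Fin (m k)), ∀ i, α k x (π i) = starRingEnd ℂ (α k x i)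

lemma ZA_pos (e : Fin r → ℤ) (hα : ∀ k x i, ‖α k x i‖ ≤ (nx x : ℝ) ^ ϑ k) (hc : ConjA α)
    {s : Fin r → ℂ} (hs : s ∈ OmT ϑ 0) (hs0 : ∀ k, (s k).im = 0)
    (v : HeightOneSpectrum (𝓞 F)) (P : Pt (kv v)) : ∃ y : ℝ, 0 < y ∧ ZA e α s v P.1 = y := by
  unfold ZA Zf ee
  rw [Fintype.prod_sigma]
  refine prod_pos' fun k _ => ?_
  obtain ⟨π, hπ⟩ := hc k (toMax ⟨v, P⟩)
  obtain ⟨y, hy0, hy⟩ := pos_prod (fun i : Fin (m k) => yA α s v P.1 ⟨k, i⟩ ^ 1)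
    (fun i => pow_lt' (yA_lt hα hs v P _) one_ne_zero) π (fun i => by
      rw [map_pow]
      congr 1
      rw [yA_eq, yA_eq, map_mul]
      change α k (toMax ⟨v, P⟩) (π i) * _ = starRingEnd ℂ (α k (toMax ⟨v, P⟩) i) * _
      rw [hπ]
      congr 1
      have h1 : (s k) = (((s k).re : ℝ) : ℂ) := by
        apply Complex.ext
        · simp
        · simp [hs0 k]
      have h2 : (nx (toMax (⟨v, P⟩ : Sg F)) : ℂ) ^ (-(s k)) =
          (((nx (toMax (⟨v, P⟩ : Sg F)) : ℝ) ^ (-(s k).re) : ℝ) : ℂ) := by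
        rw [Complex.ofReal_cpow (nx_toMax_pos _).le]
        push_cast
        rw [← h1]
      change (nx (toMax (⟨v, P⟩ : Sg F)) : ℂ) ^ (-(s k)) =
        starRingEnd ℂ ((nx (toMax (⟨v, P⟩ : Sg F)) : ℂ) ^ (-(s k)))
      rw [h2, Complex.conj_ofReal])
  change ∃ y : ℝ, 0 < y ∧ ∏ i : Fin (m k), (1 - yA α s v P.1 ⟨k, i⟩ ^ 1) ^ (-e k) = (y : ℂ)
  rw [Finset.prod_zpow, hy]
  exact ⟨y ^ (-e k), zpow_pos hy0 _, by push_cast; rfl⟩

lemma eA_pos (e : Fin r → ℤ) (hα : ∀ k x i, ‖α k x i‖ ≤ (nx x : ℝ) ^ ϑ k) (hc : ConjA α)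
    {s : Fin r → ℂ} (hs : s ∈ OmT ϑ 0) (hs0 : ∀ k, (s k).im = 0)
    (v : HeightOneSpectrum (𝓞 F)) : ∃ y : ℝ, 0 < y ∧ eA N e α s v = y := by
  unfold eA DZ
  refine fmean_pos fun c => ?_
  unfold GG
  refine prod_pos' fun P hP => ?_
  have hP' := ((mem_SF (mon_monic c).ne_zero).1 hP).1
  exact ZA_pos e hα hc hs hs0 v ⟨P, hP'.2.1, hP'.1⟩

/-- the local means are near `1` far to the right -/
lemma eA_far (N : ℕ) (e : Fin r → ℤ) (hα : ∀ k x i, ‖α k x i‖ ≤ (nx x : ℝ) ^ ϑ k) :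
    ∃ κ : ℝ, 1 < κ ∧ ∀ s ∈ OmT ϑ κ, ∀ v, eA N e α s v ≠ 0 := by
  classical
  obtain ⟨C, hC, h⟩ := local_main ((k : Fin r) × Fin (m k)) (ee m e) N (r0 := 1 / 2)
    (by norm_num) (by norm_num)
  have h1 : Tendsto (fun κ : ℝ => C * (2 : ℝ) ^ (-κ)) atTop (𝓝 (C * 0)) := by
    refine Tendsto.const_mul C ?_
    have h2 : (fun κ : ℝ => (2 : ℝ) ^ (-κ)) = fun κ => (1 / 2 : ℝ) ^ κ := by
      funext κ
      rw [Real.rpow_neg (by norm_num), one_div, Real.inv_rpow (by norm_num)]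
    rw [h2]
    exact tendsto_rpow_atTop_of_base_lt_one _ (by norm_num) (by norm_num)
  rw [mul_zero] at h1
  obtain ⟨κ, hκ1, hκ2⟩ := ((h1.eventually (gt_mem_nhds one_pos)).and (eventually_gt_atTop 1)).exists
  refine ⟨κ, hκ2, fun s hs v h0 => ?_⟩
  have h3 := pow_neg_le (two_le_qvR v) (by linarith : 0 < κ)
  obtain ⟨h00, -, -⟩ := rho_facts (by linarith : 0 < κ) v
  have h4 : (2 : ℝ) ^ (-κ) ≤ 1 / 2 := by
    calc (2 : ℝ) ^ (-κ) ≤ (2 : ℝ) ^ (-1 : ℝ) :=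
          Real.rpow_le_rpow_of_exponent_le (by norm_num) (by linarith)
      _ = 1 / 2 := by norm_num [Real.rpow_neg_one]
  have h5 := (h (kv v) (yA α s v) ((qv v : ℝ) ^ (-κ)) h00 (h3.1.trans h4) (yA_norm hα hs v)).1
  have h6 : ‖eA N e α s v - 1‖ ≤ C * (qv v : ℝ) ^ (-κ) := norm_fmean_sub_one_le h5
  rw [h0, zero_sub, norm_neg, norm_one] at h6
  have h7 : C * (qv v : ℝ) ^ (-κ) ≤ C * (2 : ℝ) ^ (-κ) := mul_le_mul_of_nonneg_left h3.1 hC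
  linarith

end loc

end Pool.Agent.KS6_22.AL
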