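import Pool.Agent.KS6_22.SP.DefS

/-!
# Families over the affine line over the ring of integers of a number field: definitions

Owner helper22.

`F` is a number field. A family of motives (or a constructible sheaf) over the affine line over the
ring of integers of `F` enters only through its Frobenius eigenvalues, `m` complex numbers
`α x 0, …, α x (m - 1)` for each closed point `x` of the affine line.
-/

set_option autoImplicit false

open Polynomial NumberField IsDedekindDomain
open Pool.Agent.KS6_22.MF Pool.Agent.KS6_22.SP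

namespace Pool.Agent.KS6_22.AL

/-- The closed points of the affine line over the ring of integers of `F`: the maximal ideals of the
polynomial ring. -/
abbrev ClPt (F : Type) [Field F] [NumberField F] : Type := MaximalSpectrum ((𝓞 F)[X])

/-- the number of elements of the residue field of a closed point -/
noncomputable def nx {F : Type} [Field F] [NumberField F] (x : ClPt F) : ℕ :=
  Nat.card ((𝓞 F)[X] ⧸ x.asIdeal)

section below

variable {F L : Type} [Field F] [NumberField F] [Field L] [NumberField L] [Algebra F L]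

lemma below_max (θ : 𝓞 L) (w : HeightOneSpectrum (𝓞 L)) :
    (w.asIdeal.comap (aeval θ : (𝓞 F)[X] →ₐ[𝓞 F] 𝓞 L)).IsMaximal := by
  haveI := w.isPrime
  haveI : Finite (𝓞 L ⧸ w.asIdeal) := Ideal.finiteQuotientOfFreeOfNeBot w.asIdeal w.ne_bot
  haveI hp : (w.asIdeal.comap (aeval θ : (𝓞 F)[X] →ₐ[𝓞 F] 𝓞 L)).IsPrime := Ideal.comap_isPrime _ _
  haveI : Finite ((𝓞 F)[X] ⧸ (w.asIdeal.comap (aeval θ : (𝓞 F)[X] →ₐ[𝓞 F] 𝓞 L))) :=
    Finite.of_injective
      (Ideal.quotientMap w.asIdeal ((aeval θ : (𝓞 F)[X] →ₐ[𝓞 F] 𝓞 L) : (𝓞 F)[X] →+* 𝓞 L) le_rfl)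
      Ideal.quotientMap_injective
  exact Ideal.Quotient.maximal_of_isField _ (Finite.isField_of_domain _)

/-- The closed point of the affine line which is the image of the prime `w` of `L` under the
morphism from the spectrum of the ring of integers of `L` to the affine line given by `θ`. -/
noncomputable def below (F : Type) [Field F] [NumberField F] [Algebra F L] (θ : 𝓞 L)
    (w : HeightOneSpectrum (𝓞 L)) : ClPt F :=
  ⟨w.asIdeal.comap (aeval θ : (𝓞 F)[X] →ₐ[𝓞 F] 𝓞 L), below_max θ w⟩

open Classical in
/-- The Euler factor at the prime `w` of `L` of the fibre at `θ` of the family: the product over `i`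
of `(1 - α x i N(w) ^ (-s))⁻¹`, where `x` is the image of `w`. It is omitted (replaced by `1`) if `w`
divides `δ`. We use this for `δ = f'(θ)`, where `f` is the minimal polynomial of `θ`; if `w` does not
divide `f'(θ)`, then the residue field of `w` is the one of `x`. -/
noncomputable def fibFactor {m : ℕ} (α : ClPt F → Fin m → ℂ) (θ δ : 𝓞 L)
    (w : HeightOneSpectrum (𝓞 L)) (s : ℂ) : ℂ :=
  if δ ∈ w.asIdeal then 1 else
    ∏ i, (1 - α (below F θ w) i * (Ideal.absNorm w.asIdeal : ℂ) ^ (-s))⁻¹

end below

open Classical in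
/-- The L-function of the fibre at `θ`, where `θ` is a root of the irreducible polynomial `f` with
the lower coefficients `c`, without the Euler factors at the finitely many primes of `F(θ)` which
divide `f'(θ)`. -/
noncomputable def Lfib {F : Type} [Field F] [NumberField F] {N m : ℕ} (α : ClPt F → Fin m → ℂ)
    (c : Fin N → 𝓞 F) (s : ℂ) : ℂ :=
  if h : Irreducible (fpoly c) then
    haveI : Fact (Irreducible (fpoly c)) := ⟨h⟩
    ∏' w : HeightOneSpectrum (𝓞 (Fld c)),
      fibFactor α (theta c) (aeval (theta c) (derivative (mon c))) w s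
  else 1

/-- The Euler factor at the closed point `x` of the L-function of the tensor product of the virtual
symmetric powers `Sym ^ (j_k) (e_k α_k)`, `k = 1, …, r`: the product over the systems `μ` of
exponents `μ (k, i)` with the sums `j_k` of
`(1 - α(x) ^ μ N(x) ^ (-u)) ^ (- a μ)`, where `a μ` is the product of the coefficients of
`X ^ μ(k, i)` in `(1 - X) ^ (- e_k)`. -/
noncomputable def totFactor {F : Type} [Field F] [NumberField F] {r : ℕ} {m : Fin r → ℕ}
    (α : ∀ k, ClPt F → Fin (m k) → ℂ) (e : Fin r → ℤ) (j : Fin r → ℕ) (u : ℂ) (x : ClPt F) : ℂ :=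
  ∏ μ ∈ weights m j, (1 - (∏ z, α z.1 x z.2 ^ μ z) * (nx x : ℂ) ^ (-u)) ^
    (-(∏ z : (k : Fin r) × Fin (m k), Ring.multichoose (e z.1) (μ z)))

/-- The L-function over all closed points of the affine line. -/
noncomputable def Ltot {F : Type} [Field F] [NumberField F] {r : ℕ} {m : Fin r → ℕ}
    (α : ∀ k, ClPt F → Fin (m k) → ℂ) (e : Fin r → ℤ) (j : Fin r → ℕ) (u : ℂ) : ℂ :=
  ∏' x : ClPt F, totFactor α e j u x

end Pool.Agent.KS6_22.AL
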