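import Pool.Agent.KS6_22.AL.Pts

/-!
# The L-function of a fibre as an Euler product over the base field

Owner helper22.
-/

set_option autoImplicit false
set_option linter.unusedSectionVars false
set_option linter.unusedVariables false
set_option linter.style.haveILetI false

open Polynomial NumberField IsDedekindDomain
open Pool.Agent.T6.H9.MV (fmean kv qv card_kv qv_ne_zero two_le_qv summable_qv
  multipliable_of_bound tprod_ne_zero' hasProd_zpow diff_prod)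
open Pool.Agent.KS6_22.NB (Ab fib mem_fib fib_finite)
open Pool.Agent.KS6_22.MF
open Pool.Agent.KS6_22.SP (ee norm_qpow qv_one qv_pos pow_neg_le prod_bound Zf idx mem_idx zc)

namespace Pool.Agent.KS6_22.AL

attribute [local instance] fldv

section one

variable {F : Type} [Field F] [NumberField F] {L : Type} [Field L] [NumberField L] [Algebra F L]
  {r : ℕ} {v : HeightOneSpectrum (𝓞 F)} {w : HeightOneSpectrum (𝓞 L)}

lemma below_eq {f : (𝓞 F)[X]} {θ : 𝓞 L} (hD : Dt f θ) (h : Ab v w) {g : (kv v)[X]}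
    (hg : g ∈ SF (fb f v)) (hg0 : psi θ h g = 0) (hx : g.Monic ∧ Irreducible g) :
    below F θ w = toMax ⟨v, ⟨g, hx⟩⟩ := by
  apply MaximalSpectrum.ext
  ext Q
  rw [mem_toMax]
  change aeval θ Q ∈ w.asIdeal ↔ g ∣ Q.map (Ideal.Quotient.mk v.asIdeal)
  rw [← Ideal.mem_span_singleton, ker_psi hD h hg hg0, RingHom.mem_ker, psi_map,
    Ideal.Quotient.eq_zero_iff_mem]

lemma card_below {f : (𝓞 F)[X]} {θ : 𝓞 L} (hD : Dt f θ) (h : Ab v w)
    (hw : Pool.Agent.KS6_22.MF.Gd f θ w) {g : (kv v)[X]} (hg : g ∈ SF (fb f v))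
    (hg0 : psi θ h g = 0) (hx : g.Monic ∧ Irreducible g) : qv v ^ g.natDegree = qv w := by
  rw [← card_kv w, ← Nat.card_congr (resIso hD h hw hg hg0).toEquiv, adj_card hx.1, card_kv]

lemma nx_below {f : (𝓞 F)[X]} {θ : 𝓞 L} (hD : Dt f θ) (w : HeightOneSpectrum (𝓞 L))
    (hw : Pool.Agent.KS6_22.MF.Gd f θ w) : nx (below F θ w) = qv w := by
  have h : Ab (w.under (𝓞 F)) w := rfl
  obtain ⟨g, hg, hg0⟩ := exists_factor hD h hw
  have hf0 : fb f (w.under (𝓞 F)) ≠ 0 := (fb_monic hD.monic _).ne_zero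
  have hx : g.Monic ∧ Irreducible g :=
    ⟨((mem_SF hf0).1 hg).1.2.1, ((mem_SF hf0).1 hg).1.1⟩
  rw [below_eq hD h hg hg0 hx, card_toMax]
  exact card_below hD h hw hg hg0 hx

open Classical in
lemma prod_above' {f : (𝓞 F)[X]} {θ : 𝓞 L} (hD : Dt f θ) (v : HeightOneSpectrum (𝓞 F))
    (φ : HeightOneSpectrum (𝓞 L) → ℂ) (Φ : (kv v)[X] → ℂ)
    (hφ : ∀ (w : HeightOneSpectrum (𝓞 L)) (h : Ab v w), Pool.Agent.KS6_22.MF.Gd f θ w →
      ∀ g ∈ SF (fb f v), psi θ h g = 0 → φ w = Φ g) :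
    ∏ w ∈ (fib L v).filter (Pool.Agent.KS6_22.MF.Gd f θ), φ w = ∏ g ∈ SF (fb f v), Φ g := by
  have hJ : ∀ w : HeightOneSpectrum (𝓞 L), ∃ g : (kv v)[X],
      (Ab v w ∧ Pool.Agent.KS6_22.MF.Gd f θ w) →
      g ∈ SF (fb f v) ∧ ∀ h : Ab v w, psi θ h g = 0 := by
    intro w
    by_cases hw : Ab v w ∧ Pool.Agent.KS6_22.MF.Gd f θ w
    · obtain ⟨g, h1, h2⟩ := exists_factor hD hw.1 hw.2
      exact ⟨g, fun _ => ⟨h1, fun _ => h2⟩⟩
    · exact ⟨0, fun h => absurd h hw⟩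
  choose J hJ using hJ
  have hm : ∀ w, w ∈ (fib L v).filter (Pool.Agent.KS6_22.MF.Gd f θ) →
      Ab v w ∧ Pool.Agent.KS6_22.MF.Gd f θ w := by
    intro w hw
    rw [Finset.mem_filter, mem_fib] at hw
    exact hw
  refine Finset.prod_bij (fun w _ => J w) ?_ ?_ ?_ ?_
  · intro w hw
    exact (hJ w (hm w hw)).1
  · intro w hw w' hw' hww
    have h1 := hJ w (hm w hw)
    have h2 := hJ w' (hm w' hw')
    have h3 : J w = J w' := hww
    refine above_unique hD (hm w hw).1 (hm w' hw').1 (hm w' hw').2 h1.1 (h1.2 _) ?_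
    rw [h3]
    exact h2.2 _
  · intro g hg
    obtain ⟨w, h, hw, hg0⟩ := exists_above hD v hg
    have hmem : w ∈ (fib L v).filter (Pool.Agent.KS6_22.MF.Gd f θ) := by
      rw [Finset.mem_filter, mem_fib]
      exact ⟨h, hw⟩
    refine ⟨w, hmem, ?_⟩
    have h1 := hJ w ⟨h, hw⟩
    exact factor_unique hD h h1.1 (h1.2 h) hg hg0
  · intro w hw
    have h1 := hJ w (hm w hw)
    exact hφ w (hm w hw).1 (hm w hw).2 (J w) h1.1 (h1.2 _)

end one

section fib

variable {F : Type} [Field F] [NumberField F] {L : Type} [Field L] [NumberField L] [Algebra F L]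
  {r : ℕ}

lemma nx_rpow_le {x y : ℝ} (x0 : ClPt F) (h : x ≤ y) (hx : 1 ≤ (nx x0 : ℝ)) :
    (nx x0 : ℝ) ^ x ≤ (nx x0 : ℝ) ^ y := Real.rpow_le_rpow_of_exponent_le hx h

/-- the Euler product of a fibre -/
theorem fib_hasProd {m : ℕ} {α : ClPt F → Fin m → ℂ} {ϑ : ℝ}
    (hα : ∀ x i, ‖α x i‖ ≤ (nx x : ℝ) ^ ϑ) {f : (𝓞 F)[X]} {θ : 𝓞 L} (hD : Dt f θ) {s : ℂ}
    (hs : 1 + ϑ < s.re) :
    HasProd (fun w : HeightOneSpectrum (𝓞 L) => fibFactor α θ (aeval θ (derivative f)) w s)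
      (∏' w : HeightOneSpectrum (𝓞 L), fibFactor α θ (aeval θ (derivative f)) w s) ∧
    ∏' w : HeightOneSpectrum (𝓞 L), fibFactor α θ (aeval θ (derivative f)) w s ≠ 0 := by
  classical
  have hκ : 0 < s.re - ϑ := by linarith
  obtain ⟨C, B, hC, hB, h⟩ := prod_bound (J := Fin m) (fun _ => -1)
    (pow_neg_le (x := 2) le_rfl hκ).2
  have key : ∀ w : HeightOneSpectrum (𝓞 L),
      ‖fibFactor α θ (aeval θ (derivative f)) w s - 1‖ ≤
      C * (qv w : ℝ) ^ (-(s.re - ϑ)) ∧ fibFactor α θ (aeval θ (derivative f)) w s ≠ 0 := by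
    intro w
    unfold fibFactor
    split_ifs with hd
    · rw [sub_self, norm_zero]
      exact ⟨mul_nonneg hC (Real.rpow_nonneg (qv_pos w).le _), one_ne_zero⟩
    · have hnx := nx_below hD w hd
      have hq2 : (2 : ℝ) ≤ qv w := by exact_mod_cast two_le_qv w
      have h1 := h (fun i => α (below F θ w) i * (qv w : ℂ) ^ (-s))
        ((qv w : ℝ) ^ (-(s.re - ϑ))) (Real.rpow_nonneg (qv_pos w).le _)
        (pow_neg_le hq2 hκ).1 (fun i => by
          rw [norm_mul, norm_qpow]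
          have h2 := hα (below F θ w) i
          rw [hnx] at h2
          calc _ ≤ (qv w : ℝ) ^ ϑ * (qv w : ℝ) ^ (-s.re) :=
                mul_le_mul_of_nonneg_right h2 (Real.rpow_nonneg (qv_pos w).le _)
            _ = _ := by
              rw [← Real.rpow_add (qv_pos w)]
              congr 1
              ring)
      simp only [zpow_neg_one] at h1
      exact ⟨h1.1, h1.2.2⟩
  have hβ : Summable fun w : HeightOneSpectrum (𝓞 L) => C * (qv w : ℝ) ^ (-(s.re - ϑ)) :=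
    (summable_qv (K := L) (x := s.re - ϑ) (by linarith)).mul_left C
  exact ⟨(multipliable_of_bound hβ fun w => (key w).1).hasProd,
    tprod_ne_zero' hβ (fun w => (key w).1) fun w => (key w).2⟩

end fib

section two

variable {F : Type} [Field F] [NumberField F] {L : Type} [Field L] [NumberField L] [Algebra F L]
  {r : ℕ} {m : Fin r → ℕ}

open Classical in
/-- the parameters at the points of the line over the residue field -/
noncomputable def yA (α : ∀ k, ClPt F → Fin (m k) → ℂ) (s : Fin r → ℂ)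
    (v : HeightOneSpectrum (𝓞 F)) (P : (kv v)[X]) : (k : Fin r) × Fin (m k) → ℂ :=
  if h : P.Monic ∧ Irreducible P then
    fun x => α x.1 (toMax ⟨v, ⟨P, h⟩⟩) x.2 * ((qv v ^ P.natDegree : ℕ) : ℂ) ^ (-(s x.1)) else 0

lemma yA_eq (α : ∀ k, ClPt F → Fin (m k) → ℂ) (s : Fin r → ℂ) (v : HeightOneSpectrum (𝓞 F))
    (P : Pt (kv v)) (x : (k : Fin r) × Fin (m k)) :
    yA α s v P.1 x = α x.1 (toMax ⟨v, P⟩) x.2 * (nx (toMax ⟨v, P⟩) : ℂ) ^ (-(s x.1)) := by
  unfold yA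
  rw [dif_pos P.2, card_toMax]

/-- the local function -/
noncomputable def ZA (e : Fin r → ℤ) (α : ∀ k, ClPt F → Fin (m k) → ℂ) (s : Fin r → ℂ)
    (v : HeightOneSpectrum (𝓞 F)) (P : (kv v)[X]) : ℂ := Zf (ee m e) (yA α s v P) 1

lemma ZA_eq (e : Fin r → ℤ) (α : ∀ k, ClPt F → Fin (m k) → ℂ) (s : Fin r → ℂ)
    (v : HeightOneSpectrum (𝓞 F)) (P : Pt (kv v)) :
    ZA e α s v P.1 = ∏ k, (∏ i, (1 - α k (toMax ⟨v, P⟩) i *
      (nx (toMax ⟨v, P⟩) : ℂ) ^ (-(s k)))⁻¹) ^ e k := by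
  unfold ZA Zf ee
  rw [Fintype.prod_sigma]
  refine Finset.prod_congr rfl fun k _ => ?_
  rw [← Finset.prod_zpow]
  refine Finset.prod_congr rfl fun i _ => ?_
  rw [inv_zpow', pow_one, yA_eq]

lemma prod_fibA {f : (𝓞 F)[X]} {θ : 𝓞 L} (hD : Dt f θ) (e : Fin r → ℤ)
    (α : ∀ k, ClPt F → Fin (m k) → ℂ) (s : Fin r → ℂ) (v : HeightOneSpectrum (𝓞 F)) :
    ∏ w ∈ fib L v, ∏ k, fibFactor (α k) θ (aeval θ (derivative f)) w (s k) ^ e k =
      GG (ZA e α s v) (fb f v) := by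
  classical
  have h1 := prod_above' hD v (fun w => ∏ k, (∏ i, (1 - α k (below F θ w) i *
    (qv w : ℂ) ^ (-(s k)))⁻¹) ^ e k) (ZA e α s v) (fun w h hw g hg hg0 => by
      have hf0 : fb f v ≠ 0 := (fb_monic hD.monic _).ne_zero
      have hx : g.Monic ∧ Irreducible g :=
        ⟨((mem_SF hf0).1 hg).1.2.1, ((mem_SF hf0).1 hg).1.1⟩
      have h2 := ZA_eq e α s v (⟨g, hx⟩ : Pt (kv v))
      change ZA e α s v g = _ at h2
      rw [h2, ← below_eq hD h hg hg0 hx, nx_below hD w hw])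
  unfold GG
  rw [← h1, Finset.prod_filter]
  refine Finset.prod_congr rfl fun w hw => ?_
  by_cases hg : Pool.Agent.KS6_22.MF.Gd f θ w
  · rw [if_pos hg]
    refine Finset.prod_congr rfl fun k _ => ?_
    unfold fibFactor
    rw [if_neg hg]
  · rw [if_neg hg]
    refine Finset.prod_eq_one fun k _ => ?_
    unfold Pool.Agent.KS6_22.MF.Gd at hg
    rw [not_not] at hg
    unfold fibFactor
    rw [if_pos hg, one_zpow]

/-- **The L-function of a fibre as an Euler product over the primes of `F`.** -/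
theorem hasProd_GA {f : (𝓞 F)[X]} {θ : 𝓞 L} (hD : Dt f θ) (e : Fin r → ℤ)
    {α : ∀ k, ClPt F → Fin (m k) → ℂ} {ϑ : Fin r → ℝ}
    (hα : ∀ k x i, ‖α k x i‖ ≤ (nx x : ℝ) ^ ϑ k) {s : Fin r → ℂ} (hs : ∀ k, 1 + ϑ k < (s k).re) :
    HasProd (fun v : HeightOneSpectrum (𝓞 F) => GG (ZA e α s v) (fb f v))
      (∏ k, (∏' w : HeightOneSpectrum (𝓞 L),
        fibFactor (α k) θ (aeval θ (derivative f)) w (s k)) ^ e k) := by
  classical
  have h0 : HasProd (fun w : HeightOneSpectrum (𝓞 L) =>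
      ∏ k, fibFactor (α k) θ (aeval θ (derivative f)) w (s k) ^ e k)
      (∏ k, (∏' w : HeightOneSpectrum (𝓞 L),
        fibFactor (α k) θ (aeval θ (derivative f)) w (s k)) ^ e k) := by
    refine hasProd_prod fun k _ => ?_
    obtain ⟨h1, h2⟩ := fib_hasProd (hα k) hD (hs k)
    exact hasProd_zpow h1 h2 (e k)
  let g := Equiv.sigmaFiberEquiv (fun w : HeightOneSpectrum (𝓞 L) => w.under (𝓞 F))
  have h1 := g.hasProd_iff.2 h0
  haveI : ∀ v : HeightOneSpectrum (𝓞 F),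
      Fintype {w : HeightOneSpectrum (𝓞 L) // w.under (𝓞 F) = v} :=
    fun v => (fib_finite (L := L) v).fintype
  have h2 := h1.sigma fun v => hasProd_fintype _
  refine h2.congr_fun fun v => ?_
  rw [← prod_fibA hD e α s v]
  refine (Finset.prod_subtype (fib L v) (fun w => ?_) (fun w => ∏ k,
    fibFactor (α k) θ (aeval θ (derivative f)) w (s k) ^ e k))
  rw [mem_fib]
  rfl

end two

end Pool.Agent.KS6_22.AL
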