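import Pool.Agent.KS6_22.SP.Sf2

/-!
# Means of multiplicative functions of the simple factors, general case

Owner helper22.
-/

set_option autoImplicit false
set_option linter.unusedSectionVars false
set_option linter.unusedVariables false
set_option linter.style.haveILetI false

open Polynomial
open Pool.Agent.T6.H9.MV (fmean fmean_eq fmean_comp fmean_pi fmean_sub fmean_ite)
open Pool.Agent.KS6_22.MF
open Pool.Agent.KS6_22.SP (SF_mul mean_sum_SF pI irr_mean q_facts prod_close mean_defect)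

namespace Pool.Agent.KS6_22.AL

section field

variable {k : Type} [Field k] [Finite k] {n : ℕ}

/-- the multiplicative function -/
noncomputable def GG (Z : k[X] → ℂ) (f : k[X]) : ℂ := ∏ P ∈ SF f, Z P

lemma GG_mul (Z : k[X] → ℂ) {P g : k[X]} (hP : Irreducible P) (hPm : P.Monic) (hg : g ≠ 0)
    (h : ¬ P ∣ g) : GG Z (P * g) = Z P * GG Z g := by
  classical
  unfold GG
  rw [SF_mul hP hPm hg h, Finset.prod_insert]
  intro h1
  exact h ((mem_SF hg).1 h1).1.2.2

/-- the mean -/
noncomputable def DZ (Z : k[X] → ℂ) (n : ℕ) : ℂ := fmean (fun c : Fin n → k => GG Z (mon c))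

open Classical in
/-- the mean over the irreducible polynomials of degree `d` -/
noncomputable def BZ (Z : k[X] → ℂ) (d : ℕ) : ℂ :=
  (d : ℂ) * fmean (fun t : Fin d → k => if Irreducible (mon t) then Z (mon t) - 1 else 0)

open Classical in
lemma mean_main' {h : k[X] → ℂ} {X : (d : ℕ) → (Fin d → k) → ℂ} {ε : ℝ} (hε : 0 ≤ ε)
    (hX : ∀ d ∈ Finset.Icc 1 n, ∀ t : Fin d → k, Irreducible (mon t) →
      ‖fmean (fun g : Fin (n - d) → k => if mon t ∣ mon g then 0 else h (mon t * mon g)) - X d t‖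
        ≤ ε) :
    ‖fmean (fun c : Fin n → k => ∑ P ∈ SF (mon c), (P.natDegree : ℂ) * h (mon c)) -
      ∑ d ∈ Finset.Icc 1 n, (d : ℂ) * fmean (fun t : Fin d → k =>
        if Irreducible (mon t) then X d t else 0)‖ ≤ n * n * ε := by
  rw [mean_sum_SF, ← Finset.sum_sub_distrib]
  have h1 : ∀ d ∈ Finset.Icc 1 n, ‖(d : ℂ) * fmean (fun t : Fin d → k =>
        if Irreducible (mon t) then fmean (fun g : Fin (n - d) → k =>
          if mon t ∣ mon g then 0 else h (mon t * mon g)) else 0) -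
        (d : ℂ) * fmean (fun t : Fin d → k => if Irreducible (mon t) then X d t else 0)‖ ≤
      n * ε := by
    intro d hd
    have hd' := Finset.mem_Icc.1 hd
    rw [← mul_sub, ← fmean_sub, norm_mul, Complex.norm_natCast]
    have h3 : (d : ℝ) ≤ n := by exact_mod_cast hd'.2
    refine mul_le_mul h3 (norm_fmean_le fun t => ?_) (norm_nonneg _) (by positivity)
    by_cases hi : Irreducible (mon t)
    · rw [if_pos hi, if_pos hi]
      exact hX d hd t hi
    · rw [if_neg hi, if_neg hi, sub_zero, norm_zero]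
      exact hε
  refine (norm_sum_le _ _).trans ((Finset.sum_le_sum h1).trans (le_of_eq ?_))
  rw [Finset.sum_const, Nat.card_Icc, nsmul_eq_mul, Nat.add_sub_cancel]
  ring

lemma DZ_shift (Z : k[X] → ℂ) (a : ℂ) (m : ℕ) :
    fmean (fun g : Fin m → k => a * GG Z (mon g) - 1) = a * DZ Z m - 1 := by
  rw [fmean_sub, fmean_const]
  congr 1
  have h1 : (fun g : Fin m → k => a * GG Z (mon g)) = fun g => GG Z (mon g) * a := by
    funext g
    ring
  rw [h1, fmean_mul_const, mul_comm]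
  rfl

lemma DZ_zero (Z : k[X] → ℂ) : DZ Z 0 = 1 := by
  unfold DZ
  have h1 : (fun c : Fin 0 → k => GG Z (mon c)) = fun _ => 1 := by
    funext c
    unfold GG
    have h2 : SF (mon c) = ∅ := by
      have h3 := card_SF_le (mon_monic c).ne_zero
      rw [mon_natDegree] at h3
      exact Finset.card_eq_zero.1 (by omega)
    rw [h2, Finset.prod_empty]
  rw [h1, fmean_const]

lemma GG_sub_one {Z : k[X] → ℂ} {B x : ℝ} (hB : 1 ≤ B) (hx : 0 ≤ x)
    (hZ : ∀ P : k[X], P.Monic → Irreducible P → ‖Z P - 1‖ ≤ x)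
    (hZB : ∀ P : k[X], P.Monic → Irreducible P → ‖Z P‖ ≤ B) {N : ℕ} (hn : n ≤ N)
    (c : Fin n → k) : ‖GG Z (mon c) - 1‖ ≤ N * B ^ N * x := by
  have hc : (SF (mon c)).card ≤ N := by
    have h3 := card_SF_le (mon_monic c).ne_zero
    rw [mon_natDegree] at h3
    omega
  have hcR : ((SF (mon c)).card : ℝ) ≤ N := by exact_mod_cast hc
  have h1 := (prod_close (SF (mon c)) hB Z (fun _ => 1) hx (fun P hP => by
    have h2 := ((mem_SF (mon_monic c).ne_zero).1 hP).1
    exact ⟨hZB P h2.2.1 h2.1, by rw [norm_one]; exact hB, hZ P h2.2.1 h2.1⟩)).1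
  rw [Finset.prod_const_one] at h1
  refine h1.trans (mul_le_mul_of_nonneg_right ?_ hx)
  exact mul_le_mul hcR (pow_le_pow_right₀ hB hc) (by positivity) (by positivity)

open Classical in
/-- **The recursion.** -/
theorem DZ_rec {Z : k[X] → ℂ} {B x : ℝ} (hB : 1 ≤ B) (hx : 0 ≤ x)
    (hZ : ∀ P : k[X], P.Monic → Irreducible P → ‖Z P - 1‖ ≤ x)
    (hZB : ∀ P : k[X], P.Monic → Irreducible P → ‖Z P‖ ≤ B) {N : ℕ} (hn : n ≤ N) :
    ‖(n : ℂ) * DZ Z n - ∑ j ∈ Finset.range n, (1 + BZ Z (j + 1)) * DZ Z (n - 1 - j)‖ ≤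
      6 * (N + 1) ^ 4 * B ^ (N + 1) * x / (Nat.card k : ℝ) := by
  obtain ⟨hq0, hq1, hq2⟩ := q_facts (k := k)
  have hnR : (n : ℝ) ≤ N := by exact_mod_cast hn
  set K : ℝ := (N + 1) * B ^ (N + 1) with hK
  have hBp : 1 ≤ B ^ N := one_le_pow₀ hB
  have hK1 : 1 ≤ K := by
    have h0 : 1 ≤ B ^ (N + 1) := one_le_pow₀ hB
    have h0' : (0 : ℝ) ≤ N := Nat.cast_nonneg N
    rw [hK]
    nlinarith
  have hNK : N * B ^ N ≤ K := by
    rw [hK]
    have h0 : B ^ N ≤ B ^ (N + 1) := pow_le_pow_right₀ hB (Nat.le_succ N)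
    have h0' : (0 : ℝ) ≤ N := Nat.cast_nonneg N
    nlinarith
  -- bound for the products
  have hprod : ∀ (m : ℕ) (P : k[X]) (_ : m ≤ N) (_ : P.Monic) (_ : Irreducible P) (g : Fin m → k),
      ‖Z P * GG Z (mon g) - 1‖ ≤ K * x := by
    intro m P hm hPm hPi g
    have h1 : Z P * GG Z (mon g) - 1 = Z P * (GG Z (mon g) - 1) + (Z P - 1) := by
      ring
    rw [h1]
    refine (norm_add_le _ _).trans ?_
    rw [norm_mul]
    have h2 := mul_le_mul (hZB P hPm hPi) (GG_sub_one hB hx hZ hZB hm g) (norm_nonneg _)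
      (by linarith)
    have h3 : B * (N * B ^ N * x) + x ≤ K * x := by
      rw [hK, pow_succ]
      have h4 : 1 ≤ B ^ N * B := one_le_mul_of_one_le_of_one_le hBp hB
      nlinarith
    linarith [hZ P hPm hPi]
  have hD1 : ∀ m, m ≤ N → ‖DZ Z m - 1‖ ≤ K * x := by
    intro m hm
    have h1 : DZ Z m - 1 = fmean (fun g : Fin m → k => GG Z (mon g) - 1) := by
      rw [fmean_sub, fmean_const]
      rfl
    rw [h1]
    exact norm_fmean_le fun g => (GG_sub_one hB hx hZ hZB hm g).trans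
      (mul_le_mul_of_nonneg_right hNK hx)
  have hmain := mean_main' (n := n) (k := k) (h := fun f => GG Z f - 1)
    (X := fun d t => Z (mon t) * DZ Z (n - d) - 1)
    (ε := K * x / (Nat.card k : ℝ)) (by positivity) (by
      intro d hd t ht
      have hd' := Finset.mem_Icc.1 hd
      have h2 : (fun g : Fin (n - d) → k => if mon t ∣ mon g then (0 : ℂ) else
          GG Z (mon t * mon g) - 1) = fun g => (Z (mon t) * GG Z (mon g) - 1) -
          (if mon t ∣ mon g then (1 : ℂ) else 0) * (Z (mon t) * GG Z (mon g) - 1) := by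
        funext g
        by_cases h3 : mon t ∣ mon g
        · rw [if_pos h3, if_pos h3]
          ring
        · rw [if_neg h3, if_neg h3, GG_mul Z ht (mon_monic t) (mon_monic g).ne_zero h3]
          ring
      have h4 := DZ_shift Z (Z (mon t)) (n - d)
      rw [h2, fmean_sub, h4, sub_sub_cancel_left, norm_neg]
      refine (norm_fmean_ind (fun g : Fin (n - d) → k => mon t ∣ mon g)
        fun g => hprod _ (mon t) (by omega) (mon_monic t) ht g).trans ?_
      have h5 := prob_dvd_le (n := n - d) (mon_monic t)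
      rw [mon_natDegree] at h5
      have h6 : 1 / (Nat.card k : ℝ) ^ d ≤ 1 / (Nat.card k : ℝ) := by
        refine one_div_le_one_div_of_le hq0 ?_
        calc (Nat.card k : ℝ) = (Nat.card k : ℝ) ^ 1 := (pow_one _).symm
          _ ≤ (Nat.card k : ℝ) ^ d := pow_le_pow_right₀ hq1 hd'.1
      have h7 := mul_le_mul_of_nonneg_left (h5.trans h6) (by positivity : 0 ≤ K * x)
      calc _ ≤ K * x * (1 / (Nat.card k : ℝ)) := by
              simpa [mul_assoc] using h7
        _ = _ := by ring)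
  have hdef := mean_defect (n := n) (k := k) (w := fun f => GG Z f - 1) (K := K * x)
    (by positivity) (fun c => (GG_sub_one hB hx hZ hZB hn c).trans
      (mul_le_mul_of_nonneg_right hNK hx))
  rw [fmean_sub] at hdef
  have hD : fmean (fun c : Fin n → k => (n : ℂ) * (GG Z (mon c) - 1)) =
      (n : ℂ) * (DZ Z n - 1) := by
    have h8 : (fun c : Fin n → k => (n : ℂ) * (GG Z (mon c) - 1)) =
        fun c => (GG Z (mon c) - 1) * (n : ℂ) := by
      funext c
      ring
    rw [h8, fmean_mul_const, fmean_sub, fmean_const]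
    unfold DZ
    ring
  rw [hD] at hdef
  -- the means over the irreducible polynomials
  have hX : ∀ d : ℕ, (d : ℂ) * fmean (fun t : Fin d → k =>
      if Irreducible (mon t) then Z (mon t) * DZ Z (n - d) - 1 else 0) =
      BZ Z d * DZ Z (n - d) + (d : ℂ) * pI k d * (DZ Z (n - d) - 1) := by
    intro d
    have h1 : (fun t : Fin d → k =>
        if Irreducible (mon t) then Z (mon t) * DZ Z (n - d) - 1 else 0) = fun t =>
        (if Irreducible (mon t) then Z (mon t) - 1 else 0) * DZ Z (n - d) +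
        (if Irreducible (mon t) then (1 : ℂ) else 0) * (DZ Z (n - d) - 1) := by
      funext t
      split_ifs <;> ring
    rw [h1, fmean_add, fmean_mul_const, fmean_mul_const]
    unfold BZ pI
    ring
  rw [Finset.sum_congr rfl fun d _ => hX d] at hmain
  have hirr : ‖∑ d ∈ Finset.Icc 1 n, (d : ℂ) * pI k d * (DZ Z (n - d) - 1) -
      ∑ d ∈ Finset.Icc 1 n, (DZ Z (n - d) - 1)‖ ≤
      n * (4 * n ^ 2 / (Nat.card k : ℝ) * (K * x)) := by
    rw [← Finset.sum_sub_distrib]
    have h9 : ∀ d ∈ Finset.Icc 1 n, ‖(d : ℂ) * pI k d * (DZ Z (n - d) - 1) - (DZ Z (n - d) - 1)‖ ≤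
        4 * n ^ 2 / (Nat.card k : ℝ) * (K * x) := by
      intro d hd
      have h10 : (d : ℂ) * pI k d * (DZ Z (n - d) - 1) - (DZ Z (n - d) - 1) =
        ((d : ℂ) * pI k d - 1) * (DZ Z (n - d) - 1) := by ring
      rw [h10, norm_mul]
      have hd' := Finset.mem_Icc.1 hd
      have hdn : (d : ℝ) ≤ n := by exact_mod_cast hd'.2
      refine mul_le_mul ((irr_mean hd'.1).trans ?_) (hD1 _ (by omega)) (norm_nonneg _)
        (by positivity)
      gcongr
    refine (norm_sum_le _ _).trans ((Finset.sum_le_sum h9).trans (le_of_eq ?_))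
    rw [Finset.sum_const, Nat.card_Icc, nsmul_eq_mul]
    push_cast
    simp
  have hreindex : ∀ φ : ℕ → ℂ, ∑ d ∈ Finset.Icc 1 n, φ d = ∑ j ∈ Finset.range n, φ (j + 1) := by
    intro φ
    symm
    refine Finset.sum_nbij' (fun j => j + 1) (fun d => d - 1) ?_ ?_ ?_ ?_ ?_
    · intro j hj
      rw [Finset.mem_range] at hj
      rw [Finset.mem_Icc]
      omega
    · intro d hd
      rw [Finset.mem_Icc] at hd
      rw [Finset.mem_range]
      omega
    · intro j _
      simp
    · intro d hd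
      rw [Finset.mem_Icc] at hd
      change d - 1 + 1 = d
      omega
    · intro j _
      rfl
  have hsum : ∑ j ∈ Finset.range n, (1 + BZ Z (j + 1)) * DZ Z (n - 1 - j) - n =
      ∑ d ∈ Finset.Icc 1 n, BZ Z d * DZ Z (n - d) + ∑ d ∈ Finset.Icc 1 n, (DZ Z (n - d) - 1) := by
    rw [hreindex, hreindex, ← Finset.sum_add_distrib]
    have h11 : (n : ℂ) = ∑ j ∈ Finset.range n, (1 : ℂ) := by simp
    rw [h11, ← Finset.sum_sub_distrib]
    refine Finset.sum_congr rfl fun j _ => ?_
    have : n - (j + 1) = n - 1 - j := by omega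
    rw [this]
    ring
  have hfin : (n : ℂ) * DZ Z n - ∑ j ∈ Finset.range n, (1 + BZ Z (j + 1)) * DZ Z (n - 1 - j) =
      ((n : ℂ) * (DZ Z n - 1) - fmean (fun c : Fin n → k =>
        ∑ P ∈ SF (mon c), (P.natDegree : ℂ) * (GG Z (mon c) - 1))) +
      (fmean (fun c : Fin n → k => ∑ P ∈ SF (mon c), (P.natDegree : ℂ) * (GG Z (mon c) - 1)) -
        ∑ d ∈ Finset.Icc 1 n, (BZ Z d * DZ Z (n - d) +
          (d : ℂ) * pI k d * (DZ Z (n - d) - 1))) +
      (∑ d ∈ Finset.Icc 1 n, (d : ℂ) * pI k d * (DZ Z (n - d) - 1) -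
        ∑ d ∈ Finset.Icc 1 n, (DZ Z (n - d) - 1)) := by
    rw [Finset.sum_add_distrib]
    linear_combination -hsum
  rw [hfin]
  refine (norm_add₃_le).trans ((add_le_add (add_le_add hdef hmain) hirr).trans ?_)
  have hN0 : (0 : ℝ) ≤ N := Nat.cast_nonneg N
  have hn0 : (0 : ℝ) ≤ n := Nat.cast_nonneg n
  have hKx : 0 ≤ K * x := by positivity
  have h12 : (n : ℝ) * (K * x) * (n / (Nat.card k : ℝ)) + n * n * (K * x / (Nat.card k : ℝ)) +
      n * (4 * n ^ 2 / (Nat.card k : ℝ) * (K * x)) =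
      (2 * n ^ 2 + 4 * n ^ 3) * (K * x / (Nat.card k : ℝ)) := by
    field_simp
    ring
  rw [h12]
  have h13 : 6 * ((N : ℝ) + 1) ^ 4 * B ^ (N + 1) * x / (Nat.card k : ℝ) =
      6 * ((N : ℝ) + 1) ^ 3 * (K * x / (Nat.card k : ℝ)) := by
    rw [hK]
    ring
  rw [h13]
  refine mul_le_mul_of_nonneg_right ?_ (by positivity)
  have h14 : (n : ℝ) ^ 2 ≤ (N + 1) ^ 2 := by gcongr; linarith
  have h15 : (n : ℝ) ^ 3 ≤ (N + 1) ^ 3 := by gcongr; linarith
  have h16 : ((N : ℝ) + 1) ^ 2 ≤ (N + 1) ^ 3 := pow_le_pow_right₀ (by linarith) (by norm_num)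
  linarith

end field

end Pool.Agent.KS6_22.AL
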