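import Pool.Agent.KS6_22.AL.Wt
import Pool.Agent.KS6_22.AL.Sf
import Pool.Agent.KS6_22.SP.Loc

/-!
# The local theorem for a family over the affine line

Owner helper22.
-/

set_option autoImplicit false
set_option linter.unusedSectionVars false
set_option linter.unusedVariables false
set_option linter.style.haveILetI false

open Polynomial
open scoped PowerSeries
open Pool.Agent.T6.H9.MV (fmean fmean_eq fmean_comp fmean_pi fmean_sub fmean_ite)
open Pool.Agent.KS6_22.MF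
open Pool.Agent.KS6_22.SP (mo ev ev_mo ev_mo_le idx mem_idx zc Zf pf pf_close Zf_bound compare
  q_facts rec_coeff Rec rec_fac fac gs)

namespace Pool.Agent.KS6_22.AL

/-- the closed points of the line -/
abbrev Pt (k : Type) [Field k] : Type := {P : k[X] // P.Monic ∧ Irreducible P}

section count

variable {k : Type} [Field k] [Finite k]

lemma card_deg_le (D : Finset (Pt k)) (d : ℕ) :
    ((D.filter fun P => P.1.natDegree = d).card : ℝ) ≤ (Nat.card k : ℝ) ^ d := by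
  classical
  haveI := Fintype.ofFinite k
  have h1 : ∀ P : Pt k, P.1.natDegree = d → ∃ c : Fin d → k, mon c = P.1 :=
    fun P hP => exists_mon P.2.1 hP
  have h2 : (D.filter fun P => P.1.natDegree = d).card ≤
      (Finset.univ : Finset (Fin d → k)).card := by
    refine Finset.card_le_card_of_injOn
      (fun P => if h : P.1.natDegree = d then (h1 P h).choose else fun _ => 0)
      (fun _ _ => Finset.mem_univ _) ?_
    intro P hP Q hQ h
    rw [Finset.mem_coe, Finset.mem_filter] at hP hQ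
    simp only [dif_pos hP.2, dif_pos hQ.2] at h
    have e1 := (h1 P hP.2).choose_spec
    have e2 := (h1 Q hQ.2).choose_spec
    rw [h] at e1
    exact Subtype.ext (e1.symm.trans e2)
  rw [Finset.card_univ, Fintype.card_fun, Fintype.card_fin, ← Nat.card_eq_fintype_card] at h2
  exact_mod_cast h2

lemma geom_Icc (x : ℝ) (M : ℕ) : (1 - x) * ∑ d ∈ Finset.Icc 1 M, x ^ d = x - x ^ (M + 1) := by
  induction M with
  | zero => simp
  | succ M ih =>
    rw [Finset.sum_Icc_succ_top (by omega), mul_add, ih]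
    ring

lemma sum_pt_le (D : Finset (Pt k)) {x : ℝ} (h0 : 0 ≤ x) (h1 : x < 1) :
    ∑ P ∈ D, (x / (Nat.card k : ℝ)) ^ P.1.natDegree ≤ x / (1 - x) := by
  classical
  obtain ⟨hq0, hq1, hq2⟩ := q_facts (k := k)
  have hmaps : ∀ P ∈ D, P.1.natDegree ∈ Finset.Icc 1 (D.sup fun P => P.1.natDegree) := by
    intro P hP
    rw [Finset.mem_Icc]
    exact ⟨P.2.2.natDegree_pos, Finset.le_sup (f := fun P : Pt k => P.1.natDegree) hP⟩
  rw [← Finset.sum_fiberwise_of_maps_to hmaps]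
  have h2 : ∀ d ∈ Finset.Icc 1 (D.sup fun P => P.1.natDegree),
      ∑ P ∈ D with P.1.natDegree = d, (x / (Nat.card k : ℝ)) ^ P.1.natDegree ≤ x ^ d := by
    intro d _
    have h3 : ∑ P ∈ D with P.1.natDegree = d, (x / (Nat.card k : ℝ)) ^ P.1.natDegree =
        ((D.filter fun P => P.1.natDegree = d).card : ℝ) * (x / (Nat.card k : ℝ)) ^ d := by
      rw [Finset.sum_congr rfl fun P hP => by rw [(Finset.mem_filter.1 hP).2],
        Finset.sum_const, nsmul_eq_mul]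
    rw [h3]
    calc _ ≤ (Nat.card k : ℝ) ^ d * (x / (Nat.card k : ℝ)) ^ d :=
          mul_le_mul_of_nonneg_right (card_deg_le D d) (by positivity)
      _ = x ^ d := by
        rw [← mul_pow, mul_div_cancel₀ _ hq0.ne']
  refine (Finset.sum_le_sum h2).trans ?_
  rw [le_div_iff₀ (by linarith), mul_comm, geom_Icc]
  have : 0 ≤ x ^ ((D.sup fun P => P.1.natDegree) + 1) := by positivity
  linarith

end count

section gp

variable {k : Type} [Field k] [Finite k] {I : Type} [Fintype I] [DecidableEq I]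

/-- the term of the Euler factor at `P` with the weight `μ` -/
noncomputable def tP (y : k[X] → I → ℂ) (P : k[X]) (μ : I → ℕ) : ℂ :=
  (∏ i, y P i ^ μ i) / (Nat.card k : ℂ) ^ P.natDegree

/-- the hypothesis on the parameters -/
def Small (y : k[X] → I → ℂ) (ρ : ℝ) : Prop :=
  ∀ P : k[X], P.Monic → Irreducible P → ∀ i, ‖y P i‖ ≤ ρ ^ P.natDegree

lemma tP_norm {y : k[X] → I → ℂ} {ρ : ℝ} (h0 : 0 ≤ ρ) (h1 : ρ ≤ 1) (hy : Small y ρ) (P : Pt k)
    {μ : I → ℕ} (hμ : 0 < ∑ i, μ i) :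
    ‖tP y P.1 μ‖ ≤ (ρ / (Nat.card k : ℝ)) ^ P.1.natDegree := by
  unfold tP
  rw [norm_div, norm_pow, Complex.norm_natCast, div_pow]
  refine div_le_div_of_nonneg_right ?_ (by positivity)
  have h2 := ev_mo_le (y := y P.1) (ρ := ρ ^ P.1.natDegree) (by positivity) (pow_le_one₀ h0 h1)
    (hy P.1 P.2.1 P.2.2) (M := 1) (μ := μ) hμ
  rwa [ev_mo, pow_one] at h2

lemma norm_int (z : ℤ) : ‖(z : ℂ)‖ = (z.natAbs : ℝ) := by
  rw [Complex.norm_intCast, Nat.cast_natAbs, Int.cast_abs]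

/-- the sum of the absolute values of the exponents -/
noncomputable def Sz (I : Type) [Fintype I] [DecidableEq I] (z : (I → ℕ) → ℤ) (N : ℕ) : ℝ :=
  ∑ μ ∈ idx I N, ((z μ).natAbs : ℝ)

lemma Sz_nonneg (z : (I → ℕ) → ℤ) (N : ℕ) : 0 ≤ Sz I z N :=
  Finset.sum_nonneg fun _ _ => Nat.cast_nonneg _

/-- the bound of the weighted norm -/
noncomputable def Kz (I : Type) [Fintype I] [DecidableEq I] (z : (I → ℕ) → ℤ) (N : ℕ) (r0 : ℝ) :
    ℝ := Real.exp (Sz I z N * (r0 / (1 - r0)) / (1 - r0))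

theorem gp_main (z : (I → ℕ) → ℤ) (N : ℕ) {r0 ρ : ℝ} (h0 : 0 < ρ) (hρ : ρ ≤ r0) (h1 : r0 < 1)
    {y : k[X] → I → ℂ} (hy : Small y ρ) (D : Finset (Pt k)) :
    Gp (r0 / ρ) (∏ P ∈ D, ∏ μ ∈ idx I N, fz P.1.natDegree (tP y P.1 μ) (z μ))
      (∑ P ∈ D, ∑ μ ∈ idx I N, ((z μ : ℤ) : ℂ⟦X⟧) * lg P.1.natDegree (tP y P.1 μ))
      (Kz I z N r0) (∏ P ∈ D, ∏ μ ∈ idx I N, (1 - tP y P.1 μ) ^ (-(z μ))) := by
  obtain ⟨hq0, hq1, hq2⟩ := q_facts (k := k)
  have h00 : 0 < r0 := by linarith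
  have h10 : 0 < 1 - r0 := by linarith
  have hr : 1 ≤ r0 / ρ := by
    rw [one_le_div h0]
    exact hρ
  have hwt : ∀ (P : Pt k), ∀ μ ∈ idx I N,
      ‖tP y P.1 μ‖ * (r0 / ρ) ^ P.1.natDegree ≤ (r0 / (Nat.card k : ℝ)) ^ P.1.natDegree := by
    intro P μ hμ
    calc _ ≤ (ρ / (Nat.card k : ℝ)) ^ P.1.natDegree * (r0 / ρ) ^ P.1.natDegree :=
          mul_le_mul_of_nonneg_right (tP_norm h0.le (by linarith) hy P (mem_idx.1 hμ).1)
            (by positivity)
      _ = _ := by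
        rw [← mul_pow]
        congr 1
        field_simp
  have hwt1 : ∀ (P : Pt k), ∀ μ ∈ idx I N, ‖tP y P.1 μ‖ * (r0 / ρ) ^ P.1.natDegree ≤ r0 := by
    intro P μ hμ
    refine (hwt P μ hμ).trans ?_
    have h2 : r0 / (Nat.card k : ℝ) ≤ r0 := div_le_self h00.le hq1
    have h3 : 0 ≤ r0 / (Nat.card k : ℝ) := by positivity
    calc _ ≤ (r0 / (Nat.card k : ℝ)) ^ 1 :=
          pow_le_pow_of_le_one h3 (by linarith) P.2.2.natDegree_pos
      _ ≤ r0 := by rwa [pow_one]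
  have hin : ∀ P ∈ D, Gp (r0 / ρ) (∏ μ ∈ idx I N, fz P.1.natDegree (tP y P.1 μ) (z μ))
      (∑ μ ∈ idx I N, ((z μ : ℤ) : ℂ⟦X⟧) * lg P.1.natDegree (tP y P.1 μ))
      (∏ μ ∈ idx I N, Real.exp ((z μ).natAbs *
        (‖tP y P.1 μ‖ * (r0 / ρ) ^ P.1.natDegree / (1 - r0))))
      (∏ μ ∈ idx I N, (1 - tP y P.1 μ) ^ (-(z μ))) := by
    intro P _
    exact gp_prod hr (idx I N) fun μ hμ => gp_fz hr h1 P.2.2.natDegree_pos (hwt1 P μ hμ) (z μ)
  refine (gp_prod hr D hin).mono ?_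
  unfold Kz
  simp only [← Real.exp_sum]
  refine Real.exp_le_exp.2 ?_
  have h4 : ∀ P ∈ D, ∑ μ ∈ idx I N, ((z μ).natAbs : ℝ) *
      (‖tP y P.1 μ‖ * (r0 / ρ) ^ P.1.natDegree / (1 - r0)) ≤
      Sz I z N / (1 - r0) * (r0 / (Nat.card k : ℝ)) ^ P.1.natDegree := by
    intro P _
    unfold Sz
    rw [Finset.sum_div, Finset.sum_mul]
    refine Finset.sum_le_sum fun μ hμ => ?_
    have h5 := mul_le_mul_of_nonneg_left (hwt P μ hμ)
      (by positivity : 0 ≤ ((z μ).natAbs : ℝ) / (1 - r0))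
    calc _ = ((z μ).natAbs : ℝ) / (1 - r0) * (‖tP y P.1 μ‖ * (r0 / ρ) ^ P.1.natDegree) := by
          ring
      _ ≤ _ := h5
  refine (Finset.sum_le_sum h4).trans ?_
  rw [← Finset.mul_sum]
  have h6 := mul_le_mul_of_nonneg_left (sum_pt_le D h00.le h1)
    (div_nonneg (Sz_nonneg z N) h10.le)
  refine h6.trans (le_of_eq ?_)
  ring

lemma Gp.norm_le {r : ℝ} (hr : 1 ≤ r) {V P : ℂ⟦X⟧} {K : ℝ} {a : ℂ} (h : Gp r V P K a) :
    ‖a‖ ≤ K := by
  have h1 := sm_one hr h.sm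
  rw [← h.val.tsum_eq]
  refine (norm_tsum_le_tsum_norm h1).trans ((h1.tsum_le_tsum (fun n => ?_) h.sm).trans h.le)
  exact le_mul_of_one_le_right (norm_nonneg _) (one_le_pow₀ hr)

lemma Gp.tail {r : ℝ} (hr : 1 ≤ r) {V P : ℂ⟦X⟧} {K : ℝ} {a : ℂ} (h : Gp r V P K a) (n : ℕ) :
    ‖a - ∑ j ∈ Finset.range n, PowerSeries.coeff j V‖ ≤ K / r ^ n := by
  have hr0 : 0 < r := by linarith
  have h1 := sm_one hr h.sm
  have h2 := h1.of_norm.sum_add_tsum_nat_add n
  rw [h.val.tsum_eq] at h2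
  rw [← h2, add_sub_cancel_left]
  have h3 : Summable fun i => ‖PowerSeries.coeff (i + n) V‖ := (summable_nat_add_iff n).2 h1
  have h4 : Summable fun i => ‖PowerSeries.coeff (i + n) V‖ * r ^ (i + n) :=
    (summable_nat_add_iff (f := fun i => ‖PowerSeries.coeff i V‖ * r ^ i) n).2 h.sm
  have h5 : ∑' i, ‖PowerSeries.coeff (i + n) V‖ * r ^ (i + n) ≤ K := by
    have h6 := h.sm.sum_add_tsum_nat_add n
    have h7 : 0 ≤ ∑ i ∈ Finset.range n, ‖PowerSeries.coeff i V‖ * r ^ i :=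
      Finset.sum_nonneg fun i _ => by positivity
    linarith [h.le]
  refine (norm_tsum_le_tsum_norm h3).trans ?_
  rw [le_div_iff₀ (by positivity), ← tsum_mul_right]
  refine ((h3.mul_right (r ^ n)).tsum_le_tsum (fun i => ?_) h4).trans h5
  refine mul_le_mul_of_nonneg_left ?_ (norm_nonneg _)
  exact pow_le_pow_right₀ hr (by omega)

end gp

end Pool.Agent.KS6_22.AL
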