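import Pool.Agent.KS6_22.AL.Loc

/-!
# The local theorem for a family over the affine line, second part

Owner helper22.
-/

set_option autoImplicit false
set_option linter.unusedSectionVars false
set_option linter.unusedVariables false
set_option linter.style.haveILetI false

open Polynomial
open scoped PowerSeries
open Pool.Agent.T6.H9.MV (fmean fmean_eq fmean_comp fmean_pi fmean_sub fmean_ite)
open Pool.Agent.KS6_22.MF
open Pool.Agent.KS6_22.SP (mo ev ev_mo ev_mo_le idx mem_idx zc Zf pf pf_close Zf_bound compare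
  q_facts rec_coeff Rec rec_fac fac gs)

namespace Pool.Agent.KS6_22.AL

section cn

variable {k : Type} [Field k] [Finite k] {I : Type} [Fintype I] [DecidableEq I]

lemma coeff_int (z : ℤ) (V : ℂ⟦X⟧) (n : ℕ) :
    PowerSeries.coeff n ((z : ℂ⟦X⟧) * V) = (z : ℂ) * PowerSeries.coeff n V := by
  have hz : (z : ℂ⟦X⟧) = PowerSeries.C (z : ℂ) := by simp
  rw [hz, PowerSeries.coeff_C_mul]

lemma coeff_lg {d n : ℕ} (hn : 1 ≤ n) (t : ℂ) :
    PowerSeries.coeff n (lg d t) = if d ∣ n then (d : ℂ) * t ^ (n / d) else 0 := by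
  unfold lg
  rw [PowerSeries.coeff_mk, if_neg (by omega)]

open Classical in
/-- the points of degree `n` -/
lemma sum_deg_eq' {n : ℕ} (D : Finset (Pt k)) (hD : ∀ P : Pt k, P.1.natDegree = n → P ∈ D)
    (w : k[X] → ℂ) :
    ∑ P ∈ D with P.1.natDegree = n, w P.1 / (Nat.card k : ℂ) ^ n =
      fmean (fun t : Fin n → k => if Irreducible (mon t) then w (mon t) else 0) := by
  haveI := Fintype.ofFinite k
  rw [fmean_eq, Fintype.card_fun, Fintype.card_fin, ← Nat.card_eq_fintype_card, Finset.sum_div,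
    Nat.cast_pow]
  have h1 : ∀ t : Fin n → k, (if Irreducible (mon t) then w (mon t) else 0) /
      (Nat.card k : ℂ) ^ n = if Irreducible (mon t) then w (mon t) / (Nat.card k : ℂ) ^ n else 0 := by
    intro t
    split_ifs
    · rfl
    · rw [zero_div]
  rw [Finset.sum_congr rfl fun t _ => h1 t, ← Finset.sum_filter]
  symm
  refine Finset.sum_bij (fun t ht => (⟨mon t, mon_monic t, (Finset.mem_filter.1 ht).2⟩ : Pt k))
    ?_ ?_ ?_ ?_
  · intro t ht
    rw [Finset.mem_filter]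
    exact ⟨hD _ (mon_natDegree t), mon_natDegree t⟩
  · intro t _ t' _ h
    exact mon_inj (Subtype.ext_iff.1 h)
  · intro P hP
    rw [Finset.mem_filter] at hP
    obtain ⟨t, ht⟩ := exists_mon P.2.1 hP.2
    refine ⟨t, ?_, Subtype.ext ht⟩
    rw [Finset.mem_filter, ht]
    exact ⟨Finset.mem_univ _, P.2.2⟩
  · intro t _
    rfl

/-- the value of the expansion at a point -/
noncomputable def wP (z : (I → ℕ) → ℤ) (N : ℕ) (y : k[X] → I → ℂ) (P : k[X]) : ℂ :=
  ∑ μ ∈ idx I N, (z μ : ℂ) * ∏ i, y P i ^ μ i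

open Classical in
/-- the coefficients of the logarithmic derivative -/
lemma cn_close (z : (I → ℕ) → ℤ) (N : ℕ) {ρ : ℝ} (h0 : 0 < ρ) (h1 : ρ < 1)
    {y : k[X] → I → ℂ} (hy : Small y ρ) (D : Finset (Pt k)) {n : ℕ} (hn : 1 ≤ n)
    (hD : ∀ P : Pt k, P.1.natDegree = n → P ∈ D) :
    ‖PowerSeries.coeff n
        (∑ P ∈ D, ∑ μ ∈ idx I N, ((z μ : ℤ) : ℂ⟦X⟧) * lg P.1.natDegree (tP y P.1 μ)) -
      (n : ℂ) * fmean (fun t : Fin n → k => if Irreducible (mon t) then wP z N y (mon t) else 0)‖ ≤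
      n * n * Sz I z N * (ρ / (Nat.card k : ℝ)) := by
  obtain ⟨hq0, hq1, hq2⟩ := q_facts (k := k)
  set T : Pt k → ℂ := fun P => ∑ μ ∈ idx I N,
    (z μ : ℂ) * PowerSeries.coeff n (lg P.1.natDegree (tP y P.1 μ)) with hT
  have e1 : PowerSeries.coeff n
      (∑ P ∈ D, ∑ μ ∈ idx I N, ((z μ : ℤ) : ℂ⟦X⟧) * lg P.1.natDegree (tP y P.1 μ)) =
      ∑ P ∈ D, T P := by
    rw [map_sum]
    refine Finset.sum_congr rfl fun P _ => ?_
    rw [map_sum, hT]
    exact Finset.sum_congr rfl fun μ _ => coeff_int _ _ _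
  have e2 : ∑ P ∈ D with P.1.natDegree = n, T P = (n : ℂ) *
      fmean (fun t : Fin n → k => if Irreducible (mon t) then wP z N y (mon t) else 0) := by
    rw [← sum_deg_eq' D hD (wP z N y), Finset.mul_sum]
    refine Finset.sum_congr rfl fun P hP => ?_
    have hd := (Finset.mem_filter.1 hP).2
    rw [hT]
    change ∑ μ ∈ idx I N, (z μ : ℂ) * PowerSeries.coeff n (lg P.1.natDegree (tP y P.1 μ)) = _
    unfold wP
    rw [Finset.sum_div, Finset.mul_sum]
    refine Finset.sum_congr rfl fun μ _ => ?_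
    rw [coeff_lg hn, hd, if_pos dvd_rfl, Nat.div_self (by omega), pow_one]
    unfold tP
    rw [hd]
    ring
  have hTz : ∀ P : Pt k, ¬ P.1.natDegree ∣ n → T P = 0 := by
    intro P hP
    rw [hT]
    refine Finset.sum_eq_zero fun μ _ => ?_
    rw [coeff_lg hn, if_neg hP, mul_zero]
  have hTb : ∀ P : Pt k, ‖T P‖ ≤ n * Sz I z N * (ρ / (Nat.card k : ℝ)) ^ n := by
    intro P
    have hb0 : 0 ≤ n * Sz I z N * (ρ / (Nat.card k : ℝ)) ^ n :=
      mul_nonneg (mul_nonneg (Nat.cast_nonneg _) (Sz_nonneg z N)) (by positivity)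
    by_cases hP : P.1.natDegree ∣ n
    · rw [hT]
      refine (norm_sum_le _ _).trans ?_
      have h3 : ∀ μ ∈ idx I N, ‖(z μ : ℂ) *
          PowerSeries.coeff n (lg P.1.natDegree (tP y P.1 μ))‖ ≤
          ((z μ).natAbs : ℝ) * (n * (ρ / (Nat.card k : ℝ)) ^ n) := by
        intro μ hμ
        rw [norm_mul, norm_int, coeff_lg hn, if_pos hP, norm_mul, Complex.norm_natCast, norm_pow]
        refine mul_le_mul_of_nonneg_left ?_ (Nat.cast_nonneg _)
        have h4 : (P.1.natDegree : ℝ) ≤ n := by exact_mod_cast Nat.le_of_dvd hn hP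
        have h5 := tP_norm h0.le h1.le hy P (mem_idx.1 hμ).1
        refine mul_le_mul h4 ?_ (by positivity) (Nat.cast_nonneg _)
        calc _ ≤ ((ρ / (Nat.card k : ℝ)) ^ P.1.natDegree) ^ (n / P.1.natDegree) :=
              pow_le_pow_left₀ (norm_nonneg _) h5 _
          _ = _ := by rw [← pow_mul, Nat.mul_div_cancel' hP]
      refine (Finset.sum_le_sum h3).trans (le_of_eq ?_)
      rw [← Finset.sum_mul]
      unfold Sz
      ring
    · rw [hTz P hP, norm_zero]
      exact hb0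
  rw [e1, ← Finset.sum_filter_add_sum_filter_not D (fun P => P.1.natDegree = n), e2,
    add_sub_cancel_left]
  have e3 : ∑ P ∈ D with ¬ P.1.natDegree = n, T P = ∑ P ∈ D with P.1.natDegree < n, T P := by
    symm
    refine Finset.sum_subset ?_ ?_
    · intro P hP
      rw [Finset.mem_filter] at hP ⊢
      exact ⟨hP.1, by omega⟩
    · intro P hP hP'
      rw [Finset.mem_filter] at hP hP'
      apply hTz
      intro h
      have := Nat.le_of_dvd hn h
      exact hP' ⟨hP.1, by omega⟩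
  rw [e3]
  have hcard : ((D.filter fun P => P.1.natDegree < n).card : ℝ) ≤
      n * (Nat.card k : ℝ) ^ (n - 1) := by
    have h6 : (D.filter fun P => P.1.natDegree < n).card =
        ∑ d ∈ Finset.range n, ((D.filter fun P => P.1.natDegree < n).filter
          fun P => P.1.natDegree = d).card := by
      refine Finset.card_eq_sum_card_fiberwise fun P hP => ?_
      rw [Finset.mem_coe, Finset.mem_filter] at hP
      rw [Finset.mem_coe, Finset.mem_range]
      exact hP.2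
    rw [h6, Nat.cast_sum]
    have h7 : ∀ d ∈ Finset.range n, (((D.filter fun P => P.1.natDegree < n).filter
          fun P => P.1.natDegree = d).card : ℝ) ≤ (Nat.card k : ℝ) ^ (n - 1) := by
      intro d hd
      rw [Finset.mem_range] at hd
      exact (card_deg_le _ d).trans (pow_le_pow_right₀ hq1 (by omega))
    refine (Finset.sum_le_sum h7).trans (le_of_eq ?_)
    rw [Finset.sum_const, Finset.card_range, nsmul_eq_mul]
  refine (norm_sum_le _ _).trans ((Finset.sum_le_sum fun P _ => hTb P).trans ?_)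
  rw [Finset.sum_const, nsmul_eq_mul]
  have hS := Sz_nonneg (I := I) z N
  have hn0 : (0 : ℝ) ≤ n := Nat.cast_nonneg n
  have hx0 : 0 ≤ ρ / (Nat.card k : ℝ) := by positivity
  have h8 : (Nat.card k : ℝ) ^ (n - 1) * (ρ / (Nat.card k : ℝ)) ^ n ≤ ρ / (Nat.card k : ℝ) := by
    obtain ⟨m, rfl⟩ : ∃ m, n = m + 1 := ⟨n - 1, by omega⟩
    rw [Nat.add_sub_cancel, pow_succ, ← mul_assoc, ← mul_pow, mul_div_cancel₀ _ hq0.ne']
    exact mul_le_of_le_one_left hx0 (pow_le_one₀ h0.le h1.le)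
  calc ((D.filter fun P => P.1.natDegree < n).card : ℝ) *
        (n * Sz I z N * (ρ / (Nat.card k : ℝ)) ^ n) ≤
        (n * (Nat.card k : ℝ) ^ (n - 1)) * (n * Sz I z N * (ρ / (Nat.card k : ℝ)) ^ n) :=
        mul_le_mul_of_nonneg_right hcard
          (mul_nonneg (mul_nonneg hn0 hS) (by positivity))
    _ = n * n * Sz I z N * ((Nat.card k : ℝ) ^ (n - 1) * (ρ / (Nat.card k : ℝ)) ^ n) := by ring
    _ ≤ _ := mul_le_mul_of_nonneg_left h8 (mul_nonneg (mul_nonneg hn0 hn0) hS)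

end cn

section main

open Classical in
/-- **The local theorem.** -/
theorem local_main (I : Type) [Fintype I] [DecidableEq I] (e : I → ℤ) (N : ℕ) {r0 : ℝ}
    (h00 : 0 < r0) (h1 : r0 < 1) : ∃ C : ℝ, 0 ≤ C ∧
    ∀ (k : Type) [Field k] [Finite k] (y : k[X] → I → ℂ) (ρ : ℝ), 0 < ρ → ρ ≤ r0 → Small y ρ →
      (∀ c : Fin N → k, ‖GG (fun P => Zf e (y P) 1) (mon c) - 1‖ ≤ C * ρ) ∧
      ∀ D : Finset (Pt k), (∀ P : Pt k, P.1.natDegree ≤ N → P ∈ D) →
      ‖DZ (fun P => Zf e (y P) 1) N *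
        ∏ P ∈ D, ∏ μ ∈ idx I N, (1 - tP y P.1 μ) ^ (zc e μ) - 1‖ ≤
        C * (ρ / (Nat.card k : ℝ) + ρ ^ (N + 1)) := by
  obtain ⟨C1, B1, hC1, hB1, hZ⟩ := Zf_bound e h1
  obtain ⟨C2, B2, hC2, hB2, hpf⟩ := pf_close e N h1
  set S : ℝ := Sz I (zc e) N with hS
  have hS0 : 0 ≤ S := Sz_nonneg _ _
  set K : ℝ := Kz I (zc e) N r0 with hK
  have hK0 : 0 < K := Real.exp_pos _
  have hN0 : (0 : ℝ) ≤ N := Nat.cast_nonneg N
  set E : ℝ := N * C2 + N * N * S with hE
  have hE0 : 0 ≤ E := by positivity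
  set B : ℝ := 1 + N * C1 + E with hB
  have hBB : 1 ≤ B := by
    have : 0 ≤ N * C1 := by positivity
    linarith
  set K1 : ℝ := 6 * ((N : ℝ) + 1) ^ 4 * B1 ^ (N + 1) * C1 + E with hK1
  have hK10 : 0 ≤ K1 := by positivity
  refine ⟨N * B1 ^ N * C1 + K * ((3 * (2 * B)) ^ N * K1 + K * (r0⁻¹) ^ (N + 1)),
    by positivity, ?_⟩
  intro k _ _ y ρ h0 hρ hy
  obtain ⟨hq0, hq1, hq2⟩ := q_facts (k := k)
  have hρ1 : ρ < 1 := by linarith
  set Z : k[X] → ℂ := fun P => Zf e (y P) 1 with hZd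
  have hρP : ∀ P : k[X], Irreducible P → 0 ≤ ρ ^ P.natDegree ∧ ρ ^ P.natDegree ≤ ρ := by
    intro P hP
    refine ⟨by positivity, ?_⟩
    calc ρ ^ P.natDegree ≤ ρ ^ 1 := pow_le_pow_of_le_one h0.le hρ1.le hP.natDegree_pos
      _ = ρ := pow_one _
  have hZ1 : ∀ P : k[X], P.Monic → Irreducible P → ‖Z P - 1‖ ≤ C1 * ρ := by
    intro P hPm hPi
    obtain ⟨ha, hb⟩ := hρP P hPi
    exact ((hZ (y P) (ρ ^ P.natDegree) ha (hb.trans hρ) (hy P hPm hPi) 0).1).trans
      (mul_le_mul_of_nonneg_left hb hC1)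
  have hZ2 : ∀ P : k[X], P.Monic → Irreducible P → ‖Z P‖ ≤ B1 := by
    intro P hPm hPi
    obtain ⟨ha, hb⟩ := hρP P hPi
    exact (hZ (y P) (ρ ^ P.natDegree) ha (hb.trans hρ) (hy P hPm hPi) 0).2.1
  have hZ3 : ∀ P : k[X], P.Monic → Irreducible P →
      ‖(Z P - 1) - wP (zc e) N y P‖ ≤ C2 * ρ ^ (N + 1) := by
    intro P hPm hPi
    obtain ⟨ha, hb⟩ := hρP P hPi
    have h2 := (hpf (y P) (ρ ^ P.natDegree) ha (hb.trans hρ) (hy P hPm hPi) 0).1
    have h3 : pf e N (y P) (0 + 1) = 1 + wP (zc e) N y P := by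
      unfold pf wP
      congr 1
      refine Finset.sum_congr rfl fun μ _ => ?_
      rw [ev_mo, zero_add, pow_one]
    rw [h3] at h2
    have h4 : Z P - 1 - wP (zc e) N y P = Zf e (y P) (0 + 1) - (1 + wP (zc e) N y P) := by
      rw [hZd]
      ring_nf
    rw [h4]
    exact h2.trans (mul_le_mul_of_nonneg_left (pow_le_pow_left₀ ha hb _) hC2)
  refine ⟨fun c => ?_, fun D hD => ?_⟩
  · refine (GG_sub_one hB1 (by positivity) hZ1 hZ2 le_rfl c).trans ?_
    have h5 : 0 ≤ K * ((3 * (2 * B)) ^ N * K1 + K * (r0⁻¹) ^ (N + 1)) * ρ := by positivity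
    have h6 : (N : ℝ) * B1 ^ N * (C1 * ρ) = N * B1 ^ N * C1 * ρ := by ring
    rw [h6, add_mul]
    linarith
  have hr : 1 ≤ r0 / ρ := by
    rw [one_le_div h0]
    exact hρ
  have hG := gp_main (zc e) N h0 hρ h1 hy D
  have hG' := gp_main (fun μ => -(zc e μ)) N h0 hρ h1 hy D
  set V : ℂ⟦X⟧ := ∏ P ∈ D, ∏ μ ∈ idx I N, fz P.1.natDegree (tP y P.1 μ) (zc e μ) with hV
  set L : ℂ⟦X⟧ := ∑ P ∈ D, ∑ μ ∈ idx I N,
    ((zc e μ : ℤ) : ℂ⟦X⟧) * lg P.1.natDegree (tP y P.1 μ) with hL
  set a : ℂ := ∏ P ∈ D, ∏ μ ∈ idx I N, (1 - tP y P.1 μ) ^ (-(zc e μ)) with ha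
  set W : ℂ := ∏ P ∈ D, ∏ μ ∈ idx I N, (1 - tP y P.1 μ) ^ (zc e μ) with hW
  have hWK : ‖W‖ ≤ K := by
    have h7 := hG'.norm_le hr
    simp only [neg_neg] at h7
    have h8 : Kz I (fun μ => -(zc e μ)) N r0 = K := by
      rw [hK]
      unfold Kz Sz
      simp only [Int.natAbs_neg]
    rw [h8] at h7
    exact h7
  have htne : ∀ (P : Pt k), ∀ μ ∈ idx I N, (1 : ℂ) - tP y P.1 μ ≠ 0 := by
    intro P μ hμ h
    have h9 := tP_norm h0.le hρ1.le hy P (mem_idx.1 hμ).1
    have h10 : tP y P.1 μ = 1 := (sub_eq_zero.1 h).symm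
    rw [h10, norm_one] at h9
    have h11 : (ρ / (Nat.card k : ℝ)) ^ P.1.natDegree < 1 := by
      refine pow_lt_one₀ (by positivity) ?_ (by have := P.2.2.natDegree_pos; omega)
      rw [div_lt_one hq0]
      linarith
    linarith
  have haW : a * W = 1 := by
    rw [ha, hW, ← Finset.prod_mul_distrib]
    refine Finset.prod_eq_one fun P _ => ?_
    rw [← Finset.prod_mul_distrib]
    refine Finset.prod_eq_one fun μ hμ => ?_
    rw [← zpow_add₀ (htne P μ hμ), neg_add_cancel, zpow_zero]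
  -- the recursion
  set U : ℕ → ℂ := fun n => PowerSeries.coeff n (fac (1 : ℂ) 1 * V) with hU
  have hUs : ∀ n, U n = ∑ j ∈ Finset.range (n + 1), PowerSeries.coeff j V := by
    intro n
    rw [hU]
    change PowerSeries.coeff n (fac (1 : ℂ) 1 * V) = _
    rw [PowerSeries.coeff_mul, Finset.Nat.sum_antidiagonal_eq_sum_range_succ
      (fun i j => PowerSeries.coeff i (fac (1 : ℂ) 1) * PowerSeries.coeff j V) n,
      ← Finset.sum_range_reflect (fun j => PowerSeries.coeff j V) (n + 1)]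
    refine Finset.sum_congr rfl fun i _ => ?_
    have : n + 1 - 1 - i = n - i := by omega
    rw [this]
    unfold fac
    simp
  have hrec : Rec (fac (1 : ℂ) 1 * V) (((1 : ℤ) : ℂ⟦X⟧) * gs 1 + L) := (rec_fac 1 1).mul hG.rc
  have hP0 : PowerSeries.coeff 0 (((1 : ℤ) : ℂ⟦X⟧) * gs (1 : ℂ) + L) = 0 := by
    rw [map_add, hG.p0, coeff_int]
    unfold gs
    simp
  have hPj : ∀ j, PowerSeries.coeff (j + 1) (((1 : ℤ) : ℂ⟦X⟧) * gs (1 : ℂ) + L) =
      1 + PowerSeries.coeff (j + 1) L := by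
    intro j
    rw [map_add, coeff_int]
    unfold gs
    simp
  have hU0 : U 0 = 1 := by
    rw [hUs, Finset.sum_range_one]
    exact hG.one
  have hBZ : ∀ n, 1 ≤ n → n ≤ N → ‖BZ Z n - PowerSeries.coeff n L‖ ≤
      E * (ρ / (Nat.card k : ℝ) + ρ ^ (N + 1)) ∧ ‖BZ Z n‖ ≤ N * C1 := by
    intro n hn hnN
    have hnR : (n : ℝ) ≤ N := by exact_mod_cast hnN
    have hn0 : (0 : ℝ) ≤ n := Nat.cast_nonneg n
    constructor
    · have h12 := cn_close (zc e) N h0 hρ1 hy D hn fun P hP => hD P (by omega)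
      rw [← hL] at h12
      have h13 : ‖BZ Z n - (n : ℂ) * fmean (fun t : Fin n → k =>
          if Irreducible (mon t) then wP (zc e) N y (mon t) else 0)‖ ≤
          N * (C2 * ρ ^ (N + 1)) := by
        unfold BZ
        rw [← mul_sub, ← fmean_sub, norm_mul, Complex.norm_natCast]
        refine mul_le_mul hnR (norm_fmean_le fun t => ?_) (norm_nonneg _) hN0
        by_cases hi : Irreducible (mon t)
        · rw [if_pos hi, if_pos hi]
          exact hZ3 _ (mon_monic t) hi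
        · rw [if_neg hi, if_neg hi, sub_zero, norm_zero]
          positivity
      have h14 : BZ Z n - PowerSeries.coeff n L = (BZ Z n - (n : ℂ) * fmean (fun t : Fin n → k =>
          if Irreducible (mon t) then wP (zc e) N y (mon t) else 0)) -
          (PowerSeries.coeff n L - (n : ℂ) * fmean (fun t : Fin n → k =>
          if Irreducible (mon t) then wP (zc e) N y (mon t) else 0)) := by ring
      rw [h14]
      refine (norm_sub_le _ _).trans ((add_le_add h13 h12).trans ?_)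
      rw [← hS, hE]
      have h15 : 0 ≤ ρ / (Nat.card k : ℝ) := by positivity
      have h16 : 0 ≤ ρ ^ (N + 1) := by positivity
      have h17 : (n : ℝ) * n * S * (ρ / (Nat.card k : ℝ)) ≤
          N * N * S * (ρ / (Nat.card k : ℝ)) := by gcongr
      have h18 : 0 ≤ N * C2 * (ρ / (Nat.card k : ℝ)) := by positivity
      have h19 : 0 ≤ N * N * S * ρ ^ (N + 1) := by positivity
      nlinarith
    · unfold BZ
      rw [norm_mul, Complex.norm_natCast]
      refine mul_le_mul hnR (norm_fmean_le fun t => ?_) (norm_nonneg _) hN0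
      by_cases hi : Irreducible (mon t)
      · rw [if_pos hi]
        exact (hZ1 _ (mon_monic t) hi).trans (mul_le_of_le_one_right hC1 hρ1.le)
      · rw [if_neg hi, norm_zero]
        exact hC1
  set x : ℝ := ρ / (Nat.card k : ℝ) + ρ ^ (N + 1) with hx
  have hx0 : 0 ≤ x := by positivity
  have hx1 : x ≤ 2 := by
    have h15 : ρ / (Nat.card k : ℝ) ≤ 1 := by
      rw [div_le_one hq0]
      linarith
    have h16 : ρ ^ (N + 1) ≤ 1 := pow_le_one₀ h0.le hρ1.le
    linarith
  have hcmp := compare (D := DZ Z) (U := U)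
    (Z := fun n => if n ≤ N then 1 + BZ Z n else 1)
    (p := fun n => if n ≤ N then 1 + PowerSeries.coeff n L else 1) (N := N)
    (B := 2 * B) (ε := K1 * x) (by linarith) (by positivity) (DZ_zero Z) hU0
    (fun d => by
      change ‖if d + 1 ≤ N then 1 + BZ Z (d + 1) else 1‖ ≤ 2 * B
      split_ifs with h
      · have h20 := (hBZ (d + 1) (by omega) h).2
        refine (norm_add_le _ _).trans ?_
        rw [norm_one]
        linarith
      · rw [norm_one]
        linarith)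
    (fun d => by
      change ‖if d + 1 ≤ N then 1 + PowerSeries.coeff (d + 1) L else 1‖ ≤ 2 * B
      split_ifs with h
      · have h20 := hBZ (d + 1) (by omega) h
        have h21 : ‖PowerSeries.coeff (d + 1) L‖ ≤ ‖BZ Z (d + 1)‖ +
            ‖BZ Z (d + 1) - PowerSeries.coeff (d + 1) L‖ := by
          have := norm_sub_le (BZ Z (d + 1)) (BZ Z (d + 1) - PowerSeries.coeff (d + 1) L)
          rwa [sub_sub_cancel] at this
        have h22 : E * x ≤ E * 2 := mul_le_mul_of_nonneg_left hx1 hE0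
        have h23 : 0 ≤ N * C1 := by positivity
        refine (norm_add_le _ _).trans ?_
        rw [norm_one, hB]
        linarith [h20.1, h20.2]
      · rw [norm_one]
        linarith)
    (fun d => by
      change ‖(if d + 1 ≤ N then 1 + BZ Z (d + 1) else 1) -
        (if d + 1 ≤ N then 1 + PowerSeries.coeff (d + 1) L else 1)‖ ≤ K1 * x
      split_ifs with h
      · have h20 := (hBZ (d + 1) (by omega) h).1
        rw [add_sub_add_left_eq_sub]
        refine h20.trans (mul_le_mul_of_nonneg_right ?_ hx0)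
        rw [hK1]
        have : 0 ≤ 6 * ((N : ℝ) + 1) ^ 4 * B1 ^ (N + 1) * C1 := by positivity
        linarith
      · rw [sub_self, norm_zero]
        positivity)
    (fun n hn => by
      have h24 := DZ_rec hB1 (by positivity) hZ1 hZ2 hn
      have h25 : ∑ j ∈ Finset.range n,
          (fun n => if n ≤ N then 1 + BZ Z n else 1) (j + 1) * DZ Z (n - 1 - j) =
          ∑ j ∈ Finset.range n, (1 + BZ Z (j + 1)) * DZ Z (n - 1 - j) := by
        refine Finset.sum_congr rfl fun j hj => ?_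
        rw [Finset.mem_range] at hj
        change (if j + 1 ≤ N then 1 + BZ Z (j + 1) else 1) * _ = _
        rw [if_pos (by omega)]
      rw [h25]
      refine h24.trans ?_
      have h26 : 6 * ((N : ℝ) + 1) ^ 4 * B1 ^ (N + 1) * (C1 * ρ) / (Nat.card k : ℝ) =
          6 * ((N : ℝ) + 1) ^ 4 * B1 ^ (N + 1) * C1 * (ρ / (Nat.card k : ℝ)) := by ring
      rw [h26]
      have h27 : ρ / (Nat.card k : ℝ) ≤ x := by
        rw [hx]
        have : 0 ≤ ρ ^ (N + 1) := by positivity
        linarith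
      have h28 : 0 ≤ 6 * ((N : ℝ) + 1) ^ 4 * B1 ^ (N + 1) * C1 := by positivity
      calc _ ≤ 6 * ((N : ℝ) + 1) ^ 4 * B1 ^ (N + 1) * C1 * x :=
            mul_le_mul_of_nonneg_left h27 h28
        _ ≤ K1 * x := mul_le_mul_of_nonneg_right (by rw [hK1]; linarith) hx0)
    (fun n hn => by
      have h29 := rec_coeff hrec hP0 n
      rw [hU]
      change (n : ℂ) * PowerSeries.coeff n (fac (1 : ℂ) 1 * V) = _
      rw [h29]
      refine Finset.sum_congr rfl fun j hj => ?_
      rw [Finset.mem_range] at hj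
      change _ = (if j + 1 ≤ N then 1 + PowerSeries.coeff (j + 1) L else 1) * _
      rw [if_pos (by omega), hPj]) N le_rfl
  have htail := hG.tail hr (N + 1)
  rw [← hUs N] at htail
  have hfin : DZ Z N * W - 1 = (DZ Z N - U N) * W - (a - U N) * W := by
    rw [← haW]
    ring
  have h30 : K / (r0 / ρ) ^ (N + 1) ≤ K * (r0⁻¹) ^ (N + 1) * x := by
    have h31 : K / (r0 / ρ) ^ (N + 1) = K * (r0⁻¹) ^ (N + 1) * ρ ^ (N + 1) := by
      rw [div_pow, inv_pow]
      field_simp
    rw [h31]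
    refine mul_le_mul_of_nonneg_left ?_ (by positivity)
    rw [hx]
    have : 0 ≤ ρ / (Nat.card k : ℝ) := by positivity
    linarith
  rw [hfin]
  refine (norm_sub_le _ _).trans ?_
  rw [norm_mul, norm_mul]
  have h32 : ‖DZ Z N - U N‖ * ‖W‖ ≤ ((3 * (2 * B)) ^ N * (K1 * x)) * K :=
    mul_le_mul hcmp.1 hWK (norm_nonneg _) (by positivity)
  have h33 : ‖a - U N‖ * ‖W‖ ≤ (K * (r0⁻¹) ^ (N + 1) * x) * K :=
    mul_le_mul (htail.trans h30) hWK (norm_nonneg _) (by positivity)
  have h34 : 0 ≤ N * B1 ^ N * C1 * x := by positivity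
  calc _ ≤ ((3 * (2 * B)) ^ N * (K1 * x)) * K + (K * (r0⁻¹) ^ (N + 1) * x) * K :=
        add_le_add h32 h33
    _ = K * ((3 * (2 * B)) ^ N * K1 + K * (r0⁻¹) ^ (N + 1)) * x := by ring
    _ ≤ _ := by
      rw [add_mul]
      linarith

end main

end Pool.Agent.KS6_22.AL
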