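import Pool.Agent.KS6_22.AL.DefA
import Pool.Agent.KS6_22.AL.Loc2
import Pool.Agent.KS6_22.SP.Fin

/-!
# The closed points of the affine line over the ring of integers

Owner helper22.
-/

set_option autoImplicit false
set_option linter.unusedSectionVars false
set_option linter.unusedVariables false
set_option linter.style.haveILetI false

open Polynomial NumberField IsDedekindDomain
open Pool.Agent.T6.H9.MV (fmean kv qv card_kv qv_ne_zero two_le_qv summable_qv)
open Pool.Agent.KS6_22.NB (Ab fib mem_fib fib_finite)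
open Pool.Agent.KS6_22.MF

namespace Pool.Agent.KS6_22.AL

attribute [local instance] fldv

section pts

variable {F : Type} [Field F] [NumberField F]

/-- pairs of a prime and a closed point of the line over the residue field -/
abbrev Sg (F : Type) [Field F] [NumberField F] : Type :=
  (v : HeightOneSpectrum (𝓞 F)) × Pt (kv v)

/-- the morphism to the residue field of the point -/
noncomputable def toK (x : Sg F) : (𝓞 F)[X] →+* AdjoinRoot x.2.1 :=
  (AdjoinRoot.mk x.2.1).comp (mapRingHom (Ideal.Quotient.mk x.1.asIdeal))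

lemma toK_apply (x : Sg F) (Q : (𝓞 F)[X]) :
    toK x Q = AdjoinRoot.mk x.2.1 (Q.map (Ideal.Quotient.mk x.1.asIdeal)) := rfl

lemma toK_surj (x : Sg F) : Function.Surjective (toK x) := by
  intro z
  obtain ⟨P, rfl⟩ := AdjoinRoot.mk_surjective z
  obtain ⟨Q, hQ⟩ := exists_mk_map P
  exact ⟨Q, by rw [toK_apply, hQ]⟩

lemma mem_ker_toK (x : Sg F) (Q : (𝓞 F)[X]) :
    Q ∈ RingHom.ker (toK x) ↔ x.2.1 ∣ Q.map (Ideal.Quotient.mk x.1.asIdeal) := by
  rw [RingHom.mem_ker, toK_apply, AdjoinRoot.mk_eq_zero]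

/-- the maximal ideal -/
noncomputable def toMax (x : Sg F) : ClPt F :=
  ⟨RingHom.ker (toK x), by
    haveI : Fact (Irreducible x.2.1) := ⟨x.2.2.2⟩
    exact RingHom.ker_isMaximal_of_surjective (toK x) (toK_surj x)⟩

lemma mem_toMax (x : Sg F) (Q : (𝓞 F)[X]) :
    Q ∈ (toMax x).asIdeal ↔ x.2.1 ∣ Q.map (Ideal.Quotient.mk x.1.asIdeal) := mem_ker_toK x Q

lemma C_mem_toMax (x : Sg F) (y : 𝓞 F) : C y ∈ (toMax x).asIdeal ↔ y ∈ x.1.asIdeal := by
  rw [mem_toMax, map_C, ← Ideal.Quotient.eq_zero_iff_mem]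
  constructor
  · intro hd
    by_contra hne
    have h2 : IsUnit (C (Ideal.Quotient.mk x.1.asIdeal y) : (kv x.1)[X]) :=
      isUnit_C.2 (IsUnit.mk0 _ hne)
    exact x.2.2.2.not_isUnit (isUnit_of_dvd_unit hd h2)
  · intro h0
    rw [h0, C_0]
    exact dvd_zero _

lemma toMax_inj : Function.Injective (toMax : Sg F → ClPt F) := by
  rintro ⟨v, P⟩ ⟨v', P'⟩ h
  have hv : v = v' := by
    apply HeightOneSpectrum.ext
    ext y
    have h1 := C_mem_toMax (⟨v, P⟩ : Sg F) y
    have h2 := C_mem_toMax (⟨v', P'⟩ : Sg F) y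
    rw [h] at h1
    exact h1.symm.trans h2
  subst hv
  congr 1
  have hd : ∀ Q : (𝓞 F)[X], P.1 ∣ Q.map (Ideal.Quotient.mk v.asIdeal) ↔
      P'.1 ∣ Q.map (Ideal.Quotient.mk v.asIdeal) := by
    intro Q
    rw [← mem_toMax (⟨v, P⟩ : Sg F), ← mem_toMax (⟨v, P'⟩ : Sg F), h]
  obtain ⟨Q, hQ⟩ := exists_mk_map P.1
  have h1 := hd Q
  rw [hQ] at h1
  have h2 : P'.1 ∣ P.1 := h1.1 dvd_rfl
  exact Subtype.ext (eq_of_dvd P'.2.2 P'.2.1 P.2.2 P.2.1 h2).symm

lemma card_toMax (x : Sg F) : nx (toMax x) = qv x.1 ^ x.2.1.natDegree := by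
  unfold nx
  have h1 : Nat.card ((𝓞 F)[X] ⧸ (toMax x).asIdeal) = Nat.card (AdjoinRoot x.2.1) :=
    Nat.card_congr (RingHom.quotientKerEquivOfSurjective (toK_surj x)).toEquiv
  rw [h1, adj_card x.2.2.1, card_kv]

/-- natural numbers greater than `1` are not units -/
lemma not_unit_nat (n : ℕ) (hn : 2 ≤ n) : ¬ IsUnit ((n : ℕ) : 𝓞 F) := by
  intro h
  have h1 := Algebra.norm_algebraMap (S := 𝓞 F) (n : ℤ)
  have h2 : IsUnit (Algebra.norm ℤ ((n : ℕ) : 𝓞 F)) := h.map (Algebra.norm ℤ)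
  have h3 : (algebraMap ℤ (𝓞 F)) (n : ℤ) = ((n : ℕ) : 𝓞 F) := by simp
  rw [h3] at h1
  rw [h1, Int.isUnit_iff] at h2
  have h4 : Module.finrank ℤ (𝓞 F) ≠ 0 := by
    rw [RingOfIntegers.rank]
    exact Module.finrank_pos.ne'
  have h5 : (2 : ℤ) ≤ (n : ℤ) ^ Module.finrank ℤ (𝓞 F) := by
    calc (2 : ℤ) ≤ n := by exact_mod_cast hn
      _ = (n : ℤ) ^ 1 := (pow_one _).symm
      _ ≤ (n : ℤ) ^ Module.finrank ℤ (𝓞 F) :=
        pow_le_pow_right₀ (by exact_mod_cast (by omega : 1 ≤ n)) (by omega)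
  rcases h2 with h2 | h2 <;> omega

lemma jac_ring : IsJacobsonRing (𝓞 F) := by
  rw [isJacobsonRing_iff_prime_eq]
  intro P hP
  by_cases h0 : P = ⊥
  · subst h0
    rw [eq_bot_iff]
    intro x hx
    rw [Ideal.mem_jacobson_bot] at hx
    rw [Ideal.mem_bot]
    by_contra hne
    have hI : Ideal.span {x} ≠ ⊥ := by
      rw [Ne, Ideal.span_singleton_eq_bot]
      exact hne
    have h1 : ((Ideal.absNorm (Ideal.span {x}) : ℕ) : 𝓞 F) ∈ Ideal.span {x} :=
      Ideal.absNorm_mem _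
    rw [Ideal.mem_span_singleton] at h1
    obtain ⟨y, hy⟩ := h1
    have h2 := hx y
    rw [← hy] at h2
    have h3 : Ideal.absNorm (Ideal.span {x}) ≠ 0 := by
      rw [Ne, Ideal.absNorm_eq_zero_iff]
      exact hI
    refine not_unit_nat (F := F) (Ideal.absNorm (Ideal.span {x}) + 1) (by omega) ?_
    push_cast
    exact h2
  · haveI : P.IsMaximal := hP.isMaximal h0
    exact Ideal.jacobson_eq_self_of_isMaximal

lemma exists_pt {k : Type} [Field k] {J : Ideal k[X]} (hJ : J.IsMaximal) :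
    ∃ P : Pt k, J = Ideal.span {P.1} := by
  obtain ⟨g, hg⟩ := IsPrincipalIdealRing.principal J
  have hg' : J = Ideal.span {g} := hg
  have hg0 : g ≠ 0 := by
    intro h0
    rw [h0, Ideal.span_singleton_eq_bot.2 rfl] at hg'
    rw [hg'] at hJ
    exact Polynomial.not_isField k (Ring.isField_iff_maximal_bot.2 hJ)
  have hgirr : Irreducible g := by
    have hp : Prime g := by
      rw [← Ideal.span_singleton_prime hg0, ← hg']
      exact hJ.isPrime
    exact hp.irreducible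
  have hlc : g.leadingCoeff ≠ 0 := leadingCoeff_ne_zero.2 hg0
  have hassoc : Associated g (g * C (g.leadingCoeff⁻¹)) :=
    ⟨Units.mkOfMulEqOne (C g.leadingCoeff⁻¹) (C g.leadingCoeff) (by
      rw [← C_mul, inv_mul_cancel₀ hlc, C_1]), rfl⟩
  refine ⟨⟨g * C (g.leadingCoeff⁻¹), monic_mul_leadingCoeff_inv hg0,
    hassoc.irreducible hgirr⟩, ?_⟩
  rw [hg']
  exact Ideal.span_singleton_eq_span_singleton.2 hassoc

lemma toMax_surj : Function.Surjective (toMax : Sg F → ClPt F) := by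
  intro M
  haveI := jac_ring (F := F)
  haveI hM := M.isMaximal
  haveI hc : (M.asIdeal.comap (C : 𝓞 F →+* (𝓞 F)[X])).IsMaximal :=
    Polynomial.isMaximal_comap_C_of_isJacobsonRing M.asIdeal
  have hne : M.asIdeal.comap (C : 𝓞 F →+* (𝓞 F)[X]) ≠ ⊥ := by
    intro h
    rw [h] at hc
    have := RingOfIntegers.not_isField F
    exact this (Ring.isField_iff_maximal_bot.2 hc)
  obtain ⟨v, hv⟩ : ∃ v : HeightOneSpectrum (𝓞 F), v.asIdeal = M.asIdeal.comap C :=
    ⟨⟨M.asIdeal.comap C, hc.isPrime, hne⟩, rfl⟩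
  have hsurj : Function.Surjective (mapRingHom (Ideal.Quotient.mk v.asIdeal)) := fun P =>
    exists_mk_map P
  have hker : RingHom.ker (mapRingHom (Ideal.Quotient.mk v.asIdeal)) ≤ M.asIdeal := by
    intro Q hQ
    rw [RingHom.mem_ker, coe_mapRingHom] at hQ
    refine Ideal.polynomial_mem_ideal_of_coeff_mem_ideal M.asIdeal Q fun n => ?_
    have h1 := congrArg (fun R => coeff R n) hQ
    simp only [coeff_map, coeff_zero] at h1
    have h2 := Ideal.Quotient.eq_zero_iff_mem.1 h1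
    rwa [hv] at h2
  have hcomap : (M.asIdeal.map (mapRingHom (Ideal.Quotient.mk v.asIdeal))).comap
      (mapRingHom (Ideal.Quotient.mk v.asIdeal)) = M.asIdeal := by
    rw [Ideal.comap_map_of_surjective' _ hsurj]
    exact sup_eq_left.2 hker
  have hJmax : (M.asIdeal.map (mapRingHom (Ideal.Quotient.mk v.asIdeal))).IsMaximal := by
    rcases Ideal.map_eq_top_or_isMaximal_of_surjective _ hsurj hM with h | h
    · exfalso
      rw [h, Ideal.comap_top] at hcomap
      exact hM.ne_top hcomap.symm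
    · exact h
  obtain ⟨P, hP⟩ := exists_pt (k := kv v) hJmax
  refine ⟨⟨v, P⟩, ?_⟩
  apply MaximalSpectrum.ext
  ext Q
  rw [mem_toMax]
  change P.1 ∣ Q.map (Ideal.Quotient.mk v.asIdeal) ↔ _
  have h3 : Q ∈ M.asIdeal ↔ Q.map (Ideal.Quotient.mk v.asIdeal) ∈
      M.asIdeal.map (mapRingHom (Ideal.Quotient.mk v.asIdeal)) := by
    conv_lhs => rw [← hcomap]
    rfl
  rw [h3]
  refine Iff.trans ?_ (Iff.of_eq (congrArg (fun J => Q.map (Ideal.Quotient.mk v.asIdeal) ∈ J)
    hP.symm))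
  exact Ideal.mem_span_singleton.symm

/-- the equivalence -/
noncomputable def ptE : Sg F ≃ ClPt F := Equiv.ofBijective toMax ⟨toMax_inj, toMax_surj⟩

lemma ptE_apply (x : Sg F) : ptE x = toMax x := rfl

end pts

end Pool.Agent.KS6_22.AL
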