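import Pool.Agent.KS6_22.SP.Fac

/-!
# Power series with weights

Owner helper22.
-/

set_option autoImplicit false
set_option linter.unusedSectionVars false

open PowerSeries
open Pool.Agent.KS6_22.SP (Rec rec_one)

namespace Pool.Agent.KS6_22.AL

/-- A power series `V` with constant term `1`, logarithmic derivative `P`, weighted norm at most
`K`, and value `a` at `1`. -/
structure Gp (r : ℝ) (V P : ℂ⟦X⟧) (K : ℝ) (a : ℂ) : Prop where
  one : coeff 0 V = 1
  rc : Rec V P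
  p0 : coeff 0 P = 0
  sm : Summable fun n => ‖coeff n V‖ * r ^ n
  le : ∑' n, ‖coeff n V‖ * r ^ n ≤ K
  val : HasSum (fun n => coeff n V) a

lemma gp_one {r : ℝ} : Gp r (1 : ℂ⟦X⟧) 0 1 1 := by
  have h : ∀ n, coeff n (1 : ℂ⟦X⟧) = if n = 0 then 1 else 0 := fun n => coeff_one n
  have h1 : HasSum (fun n => ‖coeff n (1 : ℂ⟦X⟧)‖ * r ^ n) 1 := by
    have h2 := hasSum_single (f := fun n => ‖coeff n (1 : ℂ⟦X⟧)‖ * r ^ n) 0 (fun n hn => by
      rw [h, if_neg hn, norm_zero, zero_mul])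
    rwa [h, if_pos rfl, norm_one, pow_zero, one_mul] at h2
  refine ⟨?_, rec_one, by simp, h1.summable, h1.tsum_eq.le, ?_⟩
  · rw [h, if_pos rfl]
  · have h2 := hasSum_single (f := fun n => coeff n (1 : ℂ⟦X⟧)) 0 (fun n hn => by
      rw [h, if_neg hn])
    rwa [h, if_pos rfl] at h2

lemma sm_one {r : ℝ} (hr : 1 ≤ r) {V : ℂ⟦X⟧} (h : Summable fun n => ‖coeff n V‖ * r ^ n) :
    Summable fun n => ‖coeff n V‖ := by
  refine h.of_nonneg_of_le (fun n => norm_nonneg _) fun n => ?_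
  exact le_mul_of_one_le_right (norm_nonneg _) (one_le_pow₀ hr)

lemma Gp.mul {r : ℝ} (hr : 1 ≤ r) {V P W Q : ℂ⟦X⟧} {K L : ℝ} {a b : ℂ} (h : Gp r V P K a)
    (h' : Gp r W Q L b) : Gp r (V * W) (P + Q) (K * L) (a * b) := by
  have hr0 : 0 ≤ r := by linarith
  have hA : Summable fun n => ‖(‖coeff n V‖ * r ^ n)‖ := h.sm.norm
  have hB : Summable fun n => ‖(‖coeff n W‖ * r ^ n)‖ := h'.sm.norm
  have hC := tsum_mul_tsum_eq_tsum_sum_antidiagonal_of_summable_norm hA hB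
  have hS := (summable_norm_sum_mul_antidiagonal_of_summable_norm hA hB)
  have hS' : Summable fun n => ∑ kl ∈ Finset.HasAntidiagonal.antidiagonal n,
      (‖coeff kl.1 V‖ * r ^ kl.1) * (‖coeff kl.2 W‖ * r ^ kl.2) := by
    refine hS.congr fun n => ?_
    rw [Real.norm_eq_abs, abs_of_nonneg]
    exact Finset.sum_nonneg fun kl _ => by positivity
  have hle : ∀ n, ‖coeff n (V * W)‖ * r ^ n ≤ ∑ kl ∈ Finset.HasAntidiagonal.antidiagonal n,
      (‖coeff kl.1 V‖ * r ^ kl.1) * (‖coeff kl.2 W‖ * r ^ kl.2) := by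
    intro n
    rw [coeff_mul]
    have h1 : ‖∑ p ∈ Finset.HasAntidiagonal.antidiagonal n, coeff p.1 V * coeff p.2 W‖ ≤
        ∑ p ∈ Finset.HasAntidiagonal.antidiagonal n, ‖coeff p.1 V‖ * ‖coeff p.2 W‖ := by
      refine (norm_sum_le _ _).trans (Finset.sum_le_sum fun p _ => ?_)
      rw [norm_mul]
    refine (mul_le_mul_of_nonneg_right h1 (by positivity)).trans (le_of_eq ?_)
    rw [Finset.sum_mul]
    refine Finset.sum_congr rfl fun p hp => ?_
    rw [← Finset.HasAntidiagonal.mem_antidiagonal.1 hp, pow_add]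
    ring
  have hsm : Summable fun n => ‖coeff n (V * W)‖ * r ^ n :=
    hS'.of_nonneg_of_le (fun n => by positivity) hle
  refine ⟨?_, h.rc.mul h'.rc, ?_, hsm, ?_, ?_⟩
  · have h0 : ∀ A : ℂ⟦X⟧, coeff 0 A = constantCoeff A := fun A =>
      coeff_zero_eq_constantCoeff_apply A
    rw [h0, map_mul, ← h0, ← h0, h.one, h'.one, one_mul]
  · rw [map_add, h.p0, h'.p0, add_zero]
  · refine (hsm.tsum_le_tsum hle hS').trans ?_
    rw [← hC]
    exact mul_le_mul h.le h'.le (tsum_nonneg fun n => by positivity)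
      ((tsum_nonneg fun n => by positivity).trans h.le)
  · have hV := sm_one hr h.sm
    have hW := sm_one hr h'.sm
    have h2 := tsum_mul_tsum_eq_tsum_sum_antidiagonal_of_summable_norm hV hW
    have h3 := (summable_norm_sum_mul_antidiagonal_of_summable_norm hV hW).of_norm
    rw [h.val.tsum_eq, h'.val.tsum_eq] at h2
    have h4 : (fun n => coeff n (V * W)) = fun n =>
        ∑ kl ∈ Finset.HasAntidiagonal.antidiagonal n, coeff kl.1 V * coeff kl.2 W := by
      funext n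
      rw [coeff_mul]
    rw [h4, h2]
    exact h3.hasSum

lemma Gp.pow {r : ℝ} (hr : 1 ≤ r) {V P : ℂ⟦X⟧} {K : ℝ} {a : ℂ} (h : Gp r V P K a) (n : ℕ) :
    Gp r (V ^ n) ((n : ℂ⟦X⟧) * P) (K ^ n) (a ^ n) := by
  induction n with
  | zero => simpa using gp_one
  | succ n ih =>
    have h1 := ih.mul hr h
    rw [pow_succ, pow_succ, pow_succ]
    have h2 : ((n + 1 : ℕ) : ℂ⟦X⟧) * P = (n : ℂ⟦X⟧) * P + P := by
      push_cast
      ring
    rw [h2]
    exact h1

lemma gp_prod {r : ℝ} (hr : 1 ≤ r) {ι : Type} (S : Finset ι) {V P : ι → ℂ⟦X⟧} {K : ι → ℝ}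
    {a : ι → ℂ} (h : ∀ i ∈ S, Gp r (V i) (P i) (K i) (a i)) :
    Gp r (∏ i ∈ S, V i) (∑ i ∈ S, P i) (∏ i ∈ S, K i) (∏ i ∈ S, a i) := by
  classical
  induction S using Finset.induction_on with
  | empty => simpa using gp_one
  | insert i S hi ih =>
    rw [Finset.prod_insert hi, Finset.sum_insert hi, Finset.prod_insert hi, Finset.prod_insert hi]
    exact (h i (Finset.mem_insert_self _ _)).mul hr
      (ih fun j hj => h j (Finset.mem_insert_of_mem hj))

lemma Gp.mono {r : ℝ} {V P : ℂ⟦X⟧} {K L : ℝ} {a : ℂ} (h : Gp r V P K a) (hKL : K ≤ L) :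
    Gp r V P L a := ⟨h.one, h.rc, h.p0, h.sm, h.le.trans hKL, h.val⟩

section factors

/-- the series `1 + t X ^ d + t ^ 2 X ^ (2 d) + …` -/
noncomputable def geo (d : ℕ) (t : ℂ) : ℂ⟦X⟧ := mk fun n => if d ∣ n then t ^ (n / d) else 0

/-- the polynomial `1 - t X ^ d` -/
noncomputable def lin (d : ℕ) (t : ℂ) : ℂ⟦X⟧ := 1 - C t * X ^ d

/-- the logarithmic derivative of `geo d t` -/
noncomputable def lg (d : ℕ) (t : ℂ) : ℂ⟦X⟧ :=
  mk fun n => if n = 0 then 0 else if d ∣ n then (d : ℂ) * t ^ (n / d) else 0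

lemma coeff_lin_mul (d : ℕ) (t : ℂ) (V : ℂ⟦X⟧) (n : ℕ) :
    coeff n (lin d t * V) = coeff n V - if d ≤ n then t * coeff (n - d) V else 0 := by
  unfold lin
  have h0 : (1 - C t * X ^ d) * V = V - C t * (X ^ d * V) := by ring
  rw [h0, map_sub, coeff_C_mul, coeff_X_pow_mul']
  split_ifs <;> simp

lemma lin_mul_geo {d : ℕ} (hd : 0 < d) (t : ℂ) : lin d t * geo d t = 1 := by
  ext n
  rw [coeff_lin_mul, coeff_one]
  unfold geo
  rw [coeff_mk, coeff_mk]
  by_cases hn : n = 0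
  · subst hn
    rw [if_pos (dvd_zero d), if_neg (by omega), if_pos rfl]
    simp
  · rw [if_neg hn]
    by_cases hdn : d ≤ n
    · rw [if_pos hdn]
      have h1 : d ∣ n - d ↔ d ∣ n := by
        rw [Nat.dvd_sub_iff_left hdn dvd_rfl]
      by_cases h2 : d ∣ n
      · rw [if_pos h2, if_pos (h1.2 h2)]
        rw [Nat.div_eq_sub_div hd hdn, pow_succ]
        ring
      · rw [if_neg h2, if_neg (fun h => h2 (h1.1 h))]
        simp
    · rw [if_neg hdn, sub_zero, if_neg]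
      intro h2
      exact hdn (Nat.le_of_dvd (Nat.pos_of_ne_zero hn) h2)

lemma lin_ne {d : ℕ} (hd : 0 < d) (t : ℂ) : lin d t ≠ 0 := by
  intro h
  have := lin_mul_geo hd t
  rw [h, zero_mul] at this
  exact zero_ne_one this

lemma lin_mul_lg {d : ℕ} (hd : 0 < d) (t : ℂ) : lin d t * lg d t = C ((d : ℂ) * t) * X ^ d := by
  ext n
  rw [coeff_lin_mul, coeff_C_mul, coeff_X_pow]
  unfold lg
  rw [coeff_mk, coeff_mk]
  by_cases hn : n = 0
  · subst hn
    rw [if_pos rfl, if_neg (by omega), if_neg (by omega)]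
    simp
  · rw [if_neg hn]
    by_cases hdn : d ≤ n
    · rw [if_pos hdn]
      have h1 : d ∣ n - d ↔ d ∣ n := by
        rw [Nat.dvd_sub_iff_left hdn dvd_rfl]
      by_cases h0 : n = d
      · subst h0
        rw [if_pos rfl, if_pos dvd_rfl, Nat.div_self hd, Nat.sub_self, if_pos rfl]
        simp
      · rw [if_neg h0, if_neg (by omega : ¬ n - d = 0)]
        by_cases h2 : d ∣ n
        · rw [if_pos h2, if_pos (h1.2 h2)]
          rw [Nat.div_eq_sub_div hd hdn, pow_succ]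
          ring
        · rw [if_neg h2, if_neg (fun h => h2 (h1.1 h))]
          simp
    · have h5 : ¬ d ∣ n := fun h2 => hdn (Nat.le_of_dvd (Nat.pos_of_ne_zero hn) h2)
      have h6 : ¬ n = d := fun h => hdn h.ge
      rw [if_neg hdn, sub_zero, if_neg h5, if_neg h6, mul_zero]

lemma X_der_lin {d : ℕ} (hd : 0 < d) (t : ℂ) :
    X * derivative ℂ (lin d t) = -(C ((d : ℂ) * t) * X ^ d) := by
  ext n
  rw [Pool.Agent.KS6_22.SP.coeff_X_mul_derivative, map_neg, coeff_C_mul, coeff_X_pow]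
  unfold lin
  rw [map_sub, coeff_C_mul, coeff_X_pow, coeff_one]
  by_cases hn : n = 0
  · subst hn
    rw [if_pos rfl, if_neg (by omega)]
    simp
  · rw [if_neg hn]
    by_cases h0 : n = d
    · rw [if_pos h0, h0]
      ring
    · rw [if_neg h0]
      ring

lemma rec_lin {d : ℕ} (hd : 0 < d) (t : ℂ) : Rec (lin d t) (-lg d t) := by
  unfold Rec
  rw [X_der_lin hd, neg_mul, mul_comm (lg d t), lin_mul_lg hd]

lemma rec_geo {d : ℕ} (hd : 0 < d) (t : ℂ) : Rec (geo d t) (lg d t) := by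
  unfold Rec
  have h1 := congrArg (fun A => X * derivative ℂ A) (lin_mul_geo hd t)
  simp only [Derivation.leibniz, smul_eq_mul, Derivation.map_one_eq_zero, mul_zero] at h1
  have h2 := X_der_lin hd t
  have h3 := lin_mul_lg hd t
  apply mul_left_cancel₀ (lin_ne hd t)
  have h4 : X * (lin d t * derivative ℂ (geo d t) + geo d t * derivative ℂ (lin d t)) = 0 := by
    rw [h1]
  linear_combination h4 - geo d t * h2 - geo d t * h3

lemma hasSum_mult {β : Type} [AddCommMonoid β] [TopologicalSpace β] {d : ℕ} (hd : 0 < d)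
    {f : ℕ → β} {F : β} (h0 : ∀ n, ¬ d ∣ n → f n = 0) (h : HasSum (fun l => f (d * l)) F) :
    HasSum f F := by
  have hinj : Function.Injective fun l : ℕ => d * l := fun a b hab => by
    exact Nat.eq_of_mul_eq_mul_left hd hab
  refine (hinj.hasSum_iff fun n hn => h0 n ?_).1 h
  rintro ⟨l, rfl⟩
  exact hn ⟨l, rfl⟩

lemma geo_coeff_mul {d : ℕ} (hd : 0 < d) (t : ℂ) (l : ℕ) : coeff (d * l) (geo d t) = t ^ l := by
  unfold geo
  rw [coeff_mk, if_pos (dvd_mul_right d l), Nat.mul_div_cancel_left l hd]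

lemma geo_coeff_zero {d : ℕ} (t : ℂ) {n : ℕ} (hn : ¬ d ∣ n) : coeff n (geo d t) = 0 := by
  unfold geo
  rw [coeff_mk, if_neg hn]

lemma exp_bound {x r0 : ℝ} (hx0 : 0 ≤ x) (hx : x ≤ r0) (h1 : r0 < 1) :
    (1 - x)⁻¹ ≤ Real.exp (x / (1 - r0)) ∧ 1 + x ≤ Real.exp (x / (1 - r0)) := by
  have h2 : 0 < 1 - r0 := by linarith
  have h3 : 0 < 1 - x := by linarith
  have h4 : x / (1 - x) ≤ x / (1 - r0) := div_le_div_of_nonneg_left hx0 h2 (by linarith)
  constructor
  · have h5 : (1 - x)⁻¹ = x / (1 - x) + 1 := by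
      field_simp
      ring
    rw [h5]
    linarith [Real.add_one_le_exp (x / (1 - r0))]
  · have h6 : x ≤ x / (1 - r0) := by
      rw [le_div_iff₀ h2]
      nlinarith
    linarith [Real.add_one_le_exp (x / (1 - r0))]

lemma norm_le_wt {r : ℝ} (hr : 1 ≤ r) (d : ℕ) (t : ℂ) : ‖t‖ ≤ ‖t‖ * r ^ d :=
  le_mul_of_one_le_right (norm_nonneg _) (one_le_pow₀ hr)

lemma gp_geo {r r0 : ℝ} (hr : 1 ≤ r) (h1 : r0 < 1) {d : ℕ} (hd : 0 < d) {t : ℂ}
    (hx : ‖t‖ * r ^ d ≤ r0) :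
    Gp r (geo d t) (lg d t) (Real.exp (‖t‖ * r ^ d / (1 - r0))) (1 - t)⁻¹ := by
  have hr0 : 0 ≤ r := by linarith
  have hx0 : 0 ≤ ‖t‖ * r ^ d := by positivity
  have ht := norm_le_wt hr d t
  have hS : HasSum (fun n => ‖coeff n (geo d t)‖ * r ^ n) (1 - ‖t‖ * r ^ d)⁻¹ := by
    refine hasSum_mult hd (fun n hn => ?_) ?_
    · rw [geo_coeff_zero t hn, norm_zero, zero_mul]
    · have h2 : (fun l => ‖coeff (d * l) (geo d t)‖ * r ^ (d * l)) =
          fun l => (‖t‖ * r ^ d) ^ l := by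
        funext l
        rw [geo_coeff_mul hd, norm_pow, pow_mul, mul_pow]
      rw [h2]
      exact hasSum_geometric_of_lt_one hx0 (by linarith)
  refine ⟨?_, rec_geo hd t, ?_, hS.summable, ?_, ?_⟩
  · have := geo_coeff_mul hd t 0
    simpa using this
  · unfold lg
    rw [coeff_mk, if_pos rfl]
  · rw [hS.tsum_eq]
    exact (exp_bound hx0 hx h1).1
  · refine hasSum_mult hd (fun n hn => geo_coeff_zero t hn) ?_
    have h2 : (fun l => coeff (d * l) (geo d t)) = fun l => t ^ l := by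
      funext l
      exact geo_coeff_mul hd t l
    rw [h2]
    exact hasSum_geometric_of_norm_lt_one (by linarith)

lemma lin_coeff {d : ℕ} (hd : 0 < d) (t : ℂ) (n : ℕ) :
    coeff n (lin d t) = if n = 0 then 1 else if n = d then -t else 0 := by
  unfold lin
  rw [map_sub, coeff_C_mul, coeff_X_pow, coeff_one]
  by_cases hn : n = 0
  · subst hn
    rw [if_pos rfl, if_pos rfl, if_neg (by omega)]
    simp
  · rw [if_neg hn, if_neg hn]
    split_ifs <;> simp

lemma gp_lin {r r0 : ℝ} (hr : 1 ≤ r) (h1 : r0 < 1) {d : ℕ} (hd : 0 < d) {t : ℂ}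
    (hx : ‖t‖ * r ^ d ≤ r0) :
    Gp r (lin d t) (-lg d t) (Real.exp (‖t‖ * r ^ d / (1 - r0))) (1 - t) := by
  have hr0 : 0 ≤ r := by linarith
  have hx0 : 0 ≤ ‖t‖ * r ^ d := by positivity
  have h0d : (0 : ℕ) ∉ ({d} : Finset ℕ) := by
    rw [Finset.mem_singleton]
    omega
  have hS : HasSum (fun n => ‖coeff n (lin d t)‖ * r ^ n) (1 + ‖t‖ * r ^ d) := by
    have h2 : HasSum (fun n => ‖coeff n (lin d t)‖ * r ^ n)
        (∑ n ∈ (insert 0 {d} : Finset ℕ), ‖coeff n (lin d t)‖ * r ^ n) :=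
      hasSum_sum_of_ne_finset_zero (fun n hn => by
        rw [Finset.mem_insert, Finset.mem_singleton, not_or] at hn
        rw [lin_coeff hd, if_neg hn.1, if_neg hn.2, norm_zero, zero_mul])
    rw [Finset.sum_insert h0d, Finset.sum_singleton, lin_coeff hd, lin_coeff hd, if_pos rfl,
      if_neg (by omega : ¬ d = 0), if_pos rfl, norm_one, norm_neg, pow_zero, mul_one] at h2
    exact h2
  refine ⟨?_, rec_lin hd t, ?_, hS.summable, ?_, ?_⟩
  · rw [lin_coeff hd, if_pos rfl]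
  · unfold lg
    rw [map_neg, coeff_mk, if_pos rfl, neg_zero]
  · rw [hS.tsum_eq]
    exact (exp_bound hx0 hx h1).2
  · have h2 : HasSum (fun n => coeff n (lin d t))
        (∑ n ∈ (insert 0 {d} : Finset ℕ), coeff n (lin d t)) :=
      hasSum_sum_of_ne_finset_zero (fun n hn => by
        rw [Finset.mem_insert, Finset.mem_singleton, not_or] at hn
        rw [lin_coeff hd, if_neg hn.1, if_neg hn.2])
    rw [Finset.sum_insert h0d, Finset.sum_singleton, lin_coeff hd, lin_coeff hd, if_pos rfl,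
      if_neg (by omega : ¬ d = 0), if_pos rfl] at h2
    exact h2

/-- the series of `(1 - t X ^ d) ^ (-z)` -/
noncomputable def fz (d : ℕ) (t : ℂ) (z : ℤ) : ℂ⟦X⟧ := geo d t ^ z.toNat * lin d t ^ (-z).toNat

lemma gp_fz {r r0 : ℝ} (hr : 1 ≤ r) (h1 : r0 < 1) {d : ℕ} (hd : 0 < d) {t : ℂ}
    (hx : ‖t‖ * r ^ d ≤ r0) (z : ℤ) :
    Gp r (fz d t z) ((z : ℂ⟦X⟧) * lg d t)
      (Real.exp (z.natAbs * (‖t‖ * r ^ d / (1 - r0)))) ((1 - t) ^ (-z)) := by
  have h2 := ((gp_geo hr h1 hd hx).pow hr z.toNat).mul hr ((gp_lin hr h1 hd hx).pow hr (-z).toNat)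
  have hne : (1 : ℂ) - t ≠ 0 := by
    intro h
    have h3 : t = 1 := (sub_eq_zero.1 h).symm
    have h4 := norm_le_wt hr d t
    rw [h3, norm_one] at h4
    rw [h3, norm_one] at hx
    linarith
  have e1 : ((z.toNat : ℕ) : ℂ⟦X⟧) * lg d t + (((-z).toNat : ℕ) : ℂ⟦X⟧) * -lg d t =
      (z : ℂ⟦X⟧) * lg d t := by
    have h5 : z = ((z.toNat : ℕ) : ℤ) - (((-z).toNat : ℕ) : ℤ) := by omega
    conv_rhs => rw [h5]
    push_cast
    ring
  have e2 : Real.exp (‖t‖ * r ^ d / (1 - r0)) ^ z.toNat *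
      Real.exp (‖t‖ * r ^ d / (1 - r0)) ^ (-z).toNat =
      Real.exp (z.natAbs * (‖t‖ * r ^ d / (1 - r0))) := by
    rw [← pow_add, ← Real.exp_nat_mul]
    congr 2
    have h6 : z.toNat + (-z).toNat = z.natAbs := by omega
    rw [h6]
  have e3 : (1 - t)⁻¹ ^ z.toNat * (1 - t) ^ (-z).toNat = (1 - t) ^ (-z) := by
    rw [inv_pow, ← zpow_natCast, ← zpow_natCast, ← zpow_neg, ← zpow_add₀ hne]
    congr 1
    omega
  rw [e1, e2, e3] at h2
  exact h2

end factors

end Pool.Agent.KS6_22.AL
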